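import Pool.Agent.TH508.LT.ChnP
import Pool.Agent.W387.S.Fin3

/-!
The quasi-polynomial bounds with exponent `2`.
-/

set_option linter.unusedSectionVars false

namespace Pool.Agent.TH508.LT

open H982 hiding PU
open scoped ENNReal
open PowerSeries
open Pool.Agent.W387.S

variable [L : H982.Lat]

lemma cst_num (n : ℕ) [n.AtLeastTwo] : cst (OfNat.ofNat n : ℝ≥0∞) = (OfNat.ofNat n : PS) := by
  rw [← Nat.cast_ofNat (R := ℝ≥0∞), cst_natCast, Nat.cast_ofNat]

/-- `K / (2 q)` -/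
noncomputable def xq (q : ℕ) : PS := kq q * Ks (128 * q)

lemma kK_le (q : ℕ) : kq q * Ks (16 * q) ≤ xq q := by
  unfold xq
  gcongr
  exact Ks_mono (by omega)

lemma Lam_le_xq {q : ℕ} (hq : 1 ≤ q) : Lam q ≤ 2 * xq q := by
  have h1 := Lam_le q
  have h2 : Ks (64 * q) ≤ Ks (128 * q) := Ks_mono (by omega)
  have e : cst ((2 * q : ℕ) : ℝ≥0∞) = 2 * cst (q : ℝ≥0∞) := by
    rw [← cst_num 2, ← cst_mul]; congr 1; push_cast; ring
  calc Lam q = kq q * cst ((2 * q : ℕ) : ℝ≥0∞) * Lam q := by rw [kq_mul hq, one_mul]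
    _ = 2 * (kq q * (cst (q : ℝ≥0∞) * Lam q)) := by rw [e]; ring
    _ ≤ 2 * (kq q * Ks (128 * q)) := by
        gcongr
        exact h1.trans h2
    _ = _ := rfl

lemma Us_le128 (q : ℕ) : Us (64 * q) ≤ Us (128 * q) := Us_mono (by omega)

lemma Ps_bounds {q : ℕ} (hq : 1 ≤ q) : Ps q 0 0 ≤ 100 * Us (128 * q) ∧
    Ps q 0 q ≤ 200 * (xq q * Us (128 * q)) ∧ Ps q q 0 ≤ 200 * (xq q * Us (128 * q)) ∧
    Ps q q q ≤ 200 * xq q + 400 * (xq q * (Us (128 * q) * xq q)) := by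
  have hL := Lam_le_xq hq
  have hU := Us_le128 q
  have e : cst (100 : ℝ≥0∞) = (100 : PS) := cst_num 100
  refine ⟨?_, ?_, ?_, ?_⟩
  · refine (Ps_le q 0 0 hq (Nat.zero_le _) (Nat.zero_le _)).trans ?_
    rw [e]
    gcongr
    exact (Ws_le_Us q 0 0).trans hU
  · refine (Ps_le q 0 q hq (Nat.zero_le _) le_rfl).trans ?_
    rw [e]
    calc (100 : PS) * Ws q 0 q ≤ 100 * ((2 * xq q) * Us (128 * q)) := by
          gcongr
          refine (Ws_last q 0 hq).trans ?_
          gcongr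
      _ = _ := by ring
  · refine (Ps_le q q 0 hq le_rfl (Nat.zero_le _)).trans ?_
    rw [e]
    calc (100 : PS) * Ws q q 0 ≤ 100 * ((2 * xq q) * Us (128 * q)) := by
          gcongr
          refine (Ws_first q 0 hq).trans ?_
          gcongr
      _ = _ := by ring
  · refine (Ps_le q q q hq le_rfl le_rfl).trans ?_
    rw [e]
    calc (100 : PS) * Ws q q q ≤
        100 * (2 * xq q + (2 * xq q) * (Us (128 * q) * (2 * xq q))) := by
          gcongr
          refine (Ws_both q hq).trans ?_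
          gcongr
      _ = _ := by ring

lemma sum_aa_le {q k : ℕ} (hq : 1 ≤ q) (hk : k ≤ 8 * q) :
    ∑ l ∈ Finset.range k, aa q l (16 * q) ≤
      (900 * (xq q * (xq q * Us (128 * q))) + 202 * xq q) * Ec (8 * q) (16 * q) := by
  obtain ⟨b1, b2, b3, b4⟩ := Ps_bounds hq
  have hK := kK_le q
  have hL := Lam_le_xq hq
  have h1 := sum_ya_le hq (le_refl (16 * q)) hk
  have h2 := sum_yb_le hq (le_refl (16 * q)) hk
  have h3 := sum_yt_le (W := 16 * q) hk
  calc ∑ l ∈ Finset.range k, aa q l (16 * q)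
      = kq q * Ks (16 * q) * ∑ l ∈ Finset.range k, ya q l (16 * q) +
        (∑ l ∈ Finset.range k, yt q l (16 * q) + ∑ l ∈ Finset.range k, yb q l (16 * q)) := by
        unfold aa
        rw [Finset.sum_add_distrib, Finset.sum_add_distrib, ← Finset.mul_sum]
    _ ≤ xq q * ((xq q * (100 * Us (128 * q)) + 200 * (xq q * Us (128 * q))) *
          Ec (8 * q) (16 * q)) + ((2 * xq q) * Ec (8 * q) (16 * q) +
          (xq q * (200 * (xq q * Us (128 * q))) + (200 * xq q + 400 * (xq q *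
            (Us (128 * q) * xq q)))) * Ec (8 * q) (16 * q)) := by
        refine add_le_add (mul_le_mul' hK (h1.trans ?_)) (add_le_add (h3.trans ?_) (h2.trans ?_))
        · gcongr
        · gcongr
        · gcongr
    _ = _ := by ring

lemma Nm_xU {q : ℕ} (hq : 1 ≤ q) : Nm 128 (xq q * Us (128 * q)) := by
  have h := (Nm_cst (((2 * q : ℕ) : ℝ≥0∞)⁻¹)).mul (Nm_KU (128 * q))
  have e : xq q * Us (128 * q) = cst (((2 * q : ℕ) : ℝ≥0∞)⁻¹) * (Ks (128 * q) * Us (128 * q)) := by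
    unfold xq kq; ring
  rw [e]
  refine h.weaken ?_
  have h1 : ((2 * (128 * q) : ℕ) : ℝ≥0∞) = ((2 * q : ℕ) : ℝ≥0∞) * 128 := by push_cast; ring
  rw [h1, ← mul_assoc, ENNReal.inv_mul_cancel, one_mul]
  · exact_mod_cast (by omega : 2 * q ≠ 0)
  · exact ENNReal.natCast_ne_top _

lemma Nm_num (n : ℕ) [n.AtLeastTwo] : Nm (OfNat.ofNat n) (OfNat.ofNat n : PS) := by
  rw [← cst_num n]
  exact Nm_cst _

/-- the truncated bound at one dyadic scale -/
theorem scale_bound_d {N q : ℕ} (hq : 1 ≤ q) {c : ℝ} (hc : 0 ≤ c)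
    (hE : LeT N (Ec (8 * q) (16 * q)) (cst (ENNReal.ofReal c) * Us (128 * q))) :
    NmT N (ENNReal.ofReal ((16 * q + 1) * 385 * Real.exp (15000000 * c)))
      (Rd (8 * q) (8 * q) []) := by
  have nx := Nm_xU hq
  have nA : NmT N (ENNReal.ofReal (15000000 * c)) (∑ l ∈ Finset.range (8 * q), aa q l (16 * q)) := by
    have h1 := sum_aa_le hq (le_refl (8 * q))
    have h2 := hE.mul_left (900 * (xq q * (xq q * Us (128 * q))) + 202 * xq q)
    have e : (900 * (xq q * (xq q * Us (128 * q))) + 202 * xq q) *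
        (cst (ENNReal.ofReal c) * Us (128 * q)) = cst (ENNReal.ofReal c) *
        (900 * ((xq q * Us (128 * q)) * (xq q * Us (128 * q))) +
          202 * (xq q * Us (128 * q))) := by ring
    rw [e] at h2
    refine NmT.mono' (NmT.weaken (Nm.toT ((Nm_cst (ENNReal.ofReal c)).mul
      (((Nm_num 900).mul (nx.mul nx)).add ((Nm_num 202).mul nx))) N) ?_)
      ((LeT.of_le h1).trans h2)
    have e2 : (OfNat.ofNat 900 * (128 * 128) + OfNat.ofNat 202 * 128 : ℝ≥0∞) =
        ENNReal.ofReal 14771456 := by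
      have : ENNReal.ofReal 14771456 = (14771456 : ℝ≥0∞) := by norm_num
      rw [this]
      norm_num
    rw [e2, ← ENNReal.ofReal_mul hc]
    apply ENNReal.ofReal_le_ofReal
    nlinarith
  have nP : NmT N (ENNReal.ofReal (Real.exp (15000000 * c)))
      (∏ l ∈ Finset.range (8 * q), (1 + aa q l (16 * q))) :=
    (NmT_eb (by positivity) nA (8 * q)).mono (prod_le_eb _ (8 * q))
  have h1 : Rd (8 * q) (8 * q) [] ≤ Us (16 * q) * ((1 + xq q * Us (128 * q) +
      2 * (xq q * Us (128 * q))) * ∏ l ∈ Finset.range (8 * q), (1 + aa q l (16 * q))) := by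
    refine (Rd_le_Nc hq le_rfl le_rfl []).trans ?_
    refine mul_le_mul' (Nc_nil_le _ _) ?_
    refine (gronwall (fun k => Ha q k (16 * q)) (fun l => aa q l (16 * q)) _ (8 * q)
        (fun k hk => Ha_le hq le_rfl hk) (8 * q) le_rfl).trans ?_
    refine mul_le_mul' (add_le_add (add_le_add le_rfl ?_) ?_) le_rfl
    · exact mul_le_mul' (kK_le q) (Us_mono (by omega))
    · refine (LU_le q).trans ?_
      rw [← mul_assoc]
      exact mul_le_mul' (Lam_le_xq hq) (Us_le128 q)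
  refine NmT.mono ?_ h1
  refine (((Nm_U (16 * q)).toT N).mul ((((Nm_one.add nx).add ((Nm_num 2).mul nx)).toT N).mul
    nP)).weaken ?_
  have e1 : ((16 * q + 1 : ℕ) : ℝ≥0∞) = ENNReal.ofReal (16 * q + 1) := by
    rw [← ENNReal.ofReal_natCast]; congr 1; push_cast; ring
  have e2 : (1 + 128 + OfNat.ofNat 2 * 128 : ℝ≥0∞) = ENNReal.ofReal 385 := by
    have : ENNReal.ofReal 385 = (385 : ℝ≥0∞) := by norm_num
    rw [this]
    norm_num
  rw [e1, e2, ← ENNReal.ofReal_mul (by norm_num), ← ENNReal.ofReal_mul (by positivity)]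
  apply ENNReal.ofReal_le_ofReal
  nlinarith [Real.exp_pos (15000000 * c)]

/-- the truncated bound at the scale `2 ^ i` -/
lemma scale_bound_i {N : ℕ} {c : ℝ} (hc : 0 ≤ c) (i : ℕ) (hi : 2 ^ i ≤ N) (hN : 2 ≤ N)
    (hE : ∀ r, 1 ≤ r → r ≤ N → LeT N (Ec r (2 * r)) (cst (ENNReal.ofReal c) * Us (16 * r))) :
    NmT N (ENNReal.ofReal (Real.exp ((12 * Real.log N + 15000000 * c) +
      (if i < 3 then 1024 * c ^ 2 else 0)))) (Rr (2 ^ i) (2 ^ i) []) := by
  have hp : 1 ≤ 2 ^ i := Nat.one_le_two_pow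
  have hNr : (2 : ℝ) ≤ N := by exact_mod_cast hN
  have hN0 : (0 : ℝ) < N := by linarith
  have hiN : ((2 : ℝ) ^ i) ≤ N := by exact_mod_cast hi
  have e12 : Real.exp (12 * Real.log N) = (N : ℝ) ^ 12 := by
    rw [mul_comm, Real.exp_mul, Real.exp_log hN0]
    norm_cast
  have hN11 : (2048 : ℝ) ≤ (N : ℝ) ^ 11 := by
    calc (2048 : ℝ) = 2 ^ 11 := by norm_num
      _ ≤ _ := by gcongr
  have hN12 : (N : ℝ) ^ 12 = N * (N : ℝ) ^ 11 := by ring
  split_ifs with h3
  · have h1 := scale_bound_r (r := 2 ^ i) hp hc (hE _ hp hi)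
    refine (NmT.mono h1 (Rr_le_Rc _ _ _ (Or.inl rfl))).weaken ?_
    apply ENNReal.ofReal_le_ofReal
    rw [Real.exp_add, Real.exp_add, e12]
    have h4 : (1 : ℝ) ≤ Real.exp (15000000 * c) := Real.one_le_exp (by positivity)
    have h5 := Real.exp_pos (1024 * c ^ 2)
    push_cast
    refine mul_le_mul_of_nonneg_right ?_ h5.le
    calc (2 * (2 : ℝ) ^ i + 1) * 5 ≤ (N : ℝ) ^ 12 * 1 := by
          rw [hN12]
          nlinarith
      _ ≤ _ := by gcongr
  · obtain ⟨j, rfl⟩ : ∃ j, i = j + 3 := ⟨i - 3, by omega⟩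
    have hj : 2 ^ (j + 3) = 8 * 2 ^ j := by rw [pow_add]; ring
    have hpj : 1 ≤ 2 ^ j := Nat.one_le_two_pow
    have hE' := hE (2 ^ (j + 3)) hp hi
    rw [hj, show 2 * (8 * 2 ^ j) = 16 * 2 ^ j by ring,
      show 16 * (8 * 2 ^ j) = 128 * 2 ^ j by ring] at hE'
    have h1 := scale_bound_d (q := 2 ^ j) hpj hc hE'
    rw [hj]
    refine (NmT.mono h1 (Rr_le_Rd _ _ _ (Or.inl rfl))).weaken ?_
    apply ENNReal.ofReal_le_ofReal
    rw [add_zero, Real.exp_add, e12]
    gcongr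
    have h6 : (16 * ((2 ^ j : ℕ) : ℝ)) ≤ 2 * N := by
      have : (2 : ℝ) ^ (j + 3) = 8 * 2 ^ j := by rw [pow_add]; ring
      rw [this] at hiN
      push_cast
      linarith
    rw [hN12]
    nlinarith

/-- **half-plane walks versus bridges** -/
theorem hh_le_d {N : ℕ} (hN : 2 ≤ N) {c : ℝ} (hc : 0 ≤ c)
    (hE : ∀ r, 1 ≤ r → r ≤ N → LeT N (Ec r (2 * r)) (cst (ENNReal.ofReal c) * Us (16 * r))) :
    hh N ≤ ENNReal.ofReal (Real.exp (4 * Real.log N * (12 * Real.log N + 15000000 * c) +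
      3072 * c ^ 2)) * bn N := by
  have hNr : (2 : ℝ) ≤ N := by exact_mod_cast hN
  have hN0 : (0 : ℝ) < N := by linarith
  have hl2 := log_two_gt'
  have hlN : Real.log 2 ≤ Real.log N := Real.log_le_log (by norm_num) hNr
  obtain ⟨M, hMdef⟩ : ∃ M, M = Nat.log 2 N + 1 := ⟨_, rfl⟩
  have hM1 : N < 2 ^ M := by rw [hMdef]; exact Nat.lt_pow_succ_log_self (by norm_num) N
  have hM2 : ∀ i < M, 2 ^ i ≤ N := by
    intro i hi
    calc 2 ^ i ≤ 2 ^ (Nat.log 2 N) := Nat.pow_le_pow_right (by norm_num) (by omega)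
      _ ≤ N := Nat.pow_log_le_self 2 (by omega)
  have hnorm : NmT N (ENNReal.ofReal (∏ i ∈ Finset.range M,
      Real.exp ((12 * Real.log N + 15000000 * c) + (if i < 3 then 1024 * c ^ 2 else 0))))
      (Rr 1 (2 ^ M - 1) []) := by
    refine NmT.mono ?_ (Rr_prod M)
    rw [ENNReal.ofReal_prod_of_nonneg (fun i _ => by positivity)]
    apply NmT.prod
    intro i hi
    rw [Finset.mem_range] at hi
    exact scale_bound_i hc i (hM2 i hi) hN hE
  have h1 := hh_le_of_NmT (N := N) (by omega) (M := M) (by omega) hnorm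
  refine h1.trans ?_
  gcongr
  have hM3 : (M : ℝ) ≤ 4 * Real.log N := by
    have h2 : ((Nat.log 2 N : ℕ) : ℝ) * Real.log 2 ≤ Real.log N := by
      rw [← Real.log_pow]
      apply Real.log_le_log (by positivity)
      exact_mod_cast Nat.pow_log_le_self 2 (by omega : N ≠ 0)
    rw [hMdef]
    push_cast
    nlinarith
  rw [← Real.exp_sum, Finset.sum_add_distrib, Finset.sum_const, Finset.card_range, nsmul_eq_mul]
  apply Real.exp_le_exp.mpr
  refine add_le_add ?_ ?_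
  · have : 0 ≤ 12 * Real.log N + 15000000 * c := by
      have : 0 ≤ Real.log N := by linarith
      positivity
    gcongr
  · rw [← Finset.sum_filter]
    rw [Finset.sum_const, nsmul_eq_mul]
    have h4 : ((Finset.range M).filter (fun i => i < 3)).card ≤ 3 := by
      calc _ ≤ (Finset.range 3).card := by
            apply Finset.card_le_card
            intro i hi
            rw [Finset.mem_filter] at hi
            exact Finset.mem_range.mpr hi.2
        _ = 3 := Finset.card_range 3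
    have h5 : ((((Finset.range M).filter (fun i => i < 3)).card : ℕ) : ℝ) ≤ 3 := by
      exact_mod_cast h4
    nlinarith [sq_nonneg c]

/-- **Half-plane walks are at most `exp (K (log n)^2)` times as numerous as bridges.** -/
theorem RB2 : ∃ K : ℝ, 0 ≤ K ∧ RB K 2 := by
  obtain ⟨K₁, hK₁, h1⟩ := hh_small
  obtain ⟨C, hC⟩ : ∃ C : ℝ, C = 48 + 60000000 * 164 + 3072 * 164 ^ 2 := ⟨_, rfl⟩
  have hC0 : 0 ≤ C := by rw [hC]; norm_num
  refine ⟨K₁ + C, by positivity, fun N => ?_⟩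
  set l : ℝ := 1 + Real.log ((N : ℝ) + 1) with hl
  have hl1 : 1 ≤ l := ell_ge_one N
  have hlm : 1 ≤ l ^ 2 := one_le_pow₀ hl1
  rcases Nat.lt_or_ge N 2 with hN | hN
  · refine (h1 N (by omega)).trans
      (mul_le_mul' (ENNReal.ofReal_le_ofReal (Real.exp_le_exp.mpr ?_)) le_rfl)
    calc K₁ ≤ (K₁ + C) * 1 := by linarith
      _ ≤ _ := by gcongr
  · have hNr : (2 : ℝ) ≤ N := by exact_mod_cast hN
    have hlog0 : 0 ≤ Real.log N := Real.log_nonneg (by linarith)
    have hlogl : Real.log N ≤ l := by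
      have : Real.log (N : ℝ) ≤ Real.log ((N : ℝ) + 1) :=
        Real.log_le_log (by linarith) (by linarith)
      rw [hl]; linarith
    refine (hh_le_d hN (c := 164 * Real.log N) (by positivity)
      (fun r h1 h2 => Ec_bound hN h1 h2)).trans
      (mul_le_mul' (ENNReal.ofReal_le_ofReal (Real.exp_le_exp.mpr ?_)) le_rfl)
    calc 4 * Real.log N * (12 * Real.log N + 15000000 * (164 * Real.log N)) +
          3072 * (164 * Real.log N) ^ 2 = C * Real.log N ^ 2 := by rw [hC]; ring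
      _ ≤ C * l ^ 2 := by gcongr
      _ ≤ (K₁ + C) * l ^ 2 := mul_le_mul_of_nonneg_right (by linarith) (by positivity)

theorem cr'_upper2 : ∃ K : ℝ, 0 ≤ K ∧ ∀ N : ℕ, 2 ≤ N →
    cr' N ≤ mu ^ N * Real.exp (K * Real.log N ^ 2) := by
  obtain ⟨K, hK, h⟩ := RB2
  exact cr'_upper_log (by norm_num) hK h

theorem br'_lower2 : ∃ K : ℝ, 0 ≤ K ∧ ∀ N : ℕ, 2 ≤ N →
    mu ^ N * Real.exp (- (K * Real.log N ^ 2)) ≤ br' N := by
  obtain ⟨K, hK, h⟩ := RB2
  exact br'_lower_log (by norm_num) hK h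

end Pool.Agent.TH508.LT

namespace Pool.Agent.TH508.LT

open H500S

/-- the same for the words of the square lattice -/
theorem RBsq2 : ∃ K : ℝ, 0 ≤ K ∧ H981.RB K 2 := by
  obtain ⟨K, hK, h⟩ := @RB2 sL
  refine ⟨K, hK, fun N => ?_⟩
  rw [← hh_eq, ← bn_eq]
  exact h N

theorem sq_upper2 : ∃ K : ℝ, 0 ≤ K ∧ ∀ N : ℕ, 2 ≤ N →
    H981.cr' N ≤ H981.mu ^ N * Real.exp (K * Real.log N ^ 2) := by
  obtain ⟨K, hK, h⟩ := RBsq2
  exact H981.cr'_upper_log (by norm_num) hK h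

theorem sq_lower2 : ∃ K : ℝ, 0 ≤ K ∧ ∀ N : ℕ, 2 ≤ N →
    H981.mu ^ N * Real.exp (- (K * Real.log N ^ 2)) ≤ H981.br' N := by
  obtain ⟨K, hK, h⟩ := RBsq2
  exact H981.br'_lower_log (by norm_num) hK h

theorem sq_PP2 : ∃ K : ℝ, 0 ≤ K ∧ ∀ N : ℕ, 2 ≤ N →
    H981.mu ^ (2 * N) * Real.exp (-(K * Real.log N ^ 2)) ≤ H981.PP N ∧
    H981.PP N ≤ H981.mu ^ (2 * N) * Real.exp (K * Real.log N ^ 2) := by
  obtain ⟨K, hK, h⟩ := RBsq2
  exact H981.PP_bounds_log (by norm_num) hK h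

end Pool.Agent.TH508.LT
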