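import Pool.Agent.W387.Q.Def
import Pool.Agent.TH508.LT.Fin2

/-!
# The exponent two

Instance for the files `Pool.Agent.W387.Q.*` (do not import `Pool.Agent.W387.Q.Ex3` beside this
file).
-/

set_option autoImplicit false

namespace Pool.Agent.TH508.LT

/-- the exponent two -/
instance ex2 : Pool.Agent.W387.Q.Ex where
  e := 2
  pos := by norm_num
  up := sq_upper2
  pp := sq_PP2

end Pool.Agent.TH508.LT
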