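import Pool.Agent.W387.Q.Parity
import Pool.Agent.TH508.LT.Ex2

/-!
# The gap condition for logarithmic exponents, for the exponent two
-/

set_option autoImplicit false

namespace Pool.Agent.TH508.LT

open Filter Topology Pool.Agent.W387.Q

lemma rN_div_log {n : ℕ} (hn : 2 ≤ n) :
    rN n / Real.log n = Real.sqrt (1 / n) := by
  have hn' : (2 : ℝ) ≤ n := by exact_mod_cast hn
  have hl : 0 < Real.log n := Real.log_pos (by linarith)
  show Real.sqrt (Real.log n ^ 2 / n) / Real.log n = _
  rw [div_eq_iff hl.ne']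
  nth_rw 2 [← Real.sqrt_sq hl.le]
  rw [← Real.sqrt_mul (by positivity)]
  congr 1
  field_simp

/-- `rN n = log n / √n` for the exponent two -/
lemma rN_eq {n : ℕ} (hn : 2 ≤ n) : rN n = Real.log n / Real.sqrt n := by
  have hn' : (2 : ℝ) ≤ n := by exact_mod_cast hn
  have hl : 0 < Real.log n := Real.log_pos (by linarith)
  show Real.sqrt (Real.log n ^ 2 / n) = _
  rw [Real.sqrt_div (by positivity), Real.sqrt_sq hl.le]

lemma gap2 (s : ℕ → ℕ) (hs : Tendsto s atTop atTop)
    (hgap : Tendsto (fun k => ((s (k + 1) : ℝ) - s k) / Real.sqrt (s k)) atTop (𝓝 0)) :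
    Tendsto (fun k => ((s (k + 1) : ℝ) - s k) * rN (s k) / Real.log (s k)) atTop (𝓝 0) := by
  refine hgap.congr' ?_
  filter_upwards [hs.eventually_ge_atTop 2] with k hk
  rw [mul_div_assoc, rN_div_log hk, Real.sqrt_div zero_le_one, Real.sqrt_one, mul_one_div]

end Pool.Agent.TH508.LT
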