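import Pool.Agent.TH508.LT.LnkP

/-!
Chains of folded bridges at one dyadic scale `r = 8 q`: the improved two-step Gronwall argument.

Every bridge of the chain is split at a mark in `X ++ ι ++ Y`, where `ι` is the irreducible piece
covering a mark at distance between `2 q` and `4 q` from the end.  If `wd ι < q` then both `X` and
`Y` have width at least `q` and the piece `ι` is removed, with weight `wd ι / (2 q)`.  If
`q ≤ wd ι` then `ι` is attached to `Y` (for every second bridge) or to `X` (for the other ones).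
Then at every second fold of the chain the two parts meeting there are both of width at least `q`
and, if they are not separated from their bridge by a removed piece, have a wide outer piece; the
sum over such pairs costs no logarithm (`Ps_le`).  The difficulty is that `ι ++ Y` can be wider
than the next bridge of the chain; in this case the widths of the following bridges are smaller
than the width of `ι ++ Y`, which can be used as an index in the Gronwall argument, and only one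
fold (with one logarithm) is used.
-/

set_option linter.unusedSectionVars false

namespace Pool.Agent.TH508.LT

open H982 hiding PU
open scoped ENNReal
open PowerSeries
open Pool.Agent.W387.S

variable [L : H982.Lat]

lemma CC.anti {s s' : ℕ} {β β' : List St} (h : CC s β β') (hs : s' ≤ s) : CC s' β β' :=
  fun u X hu hX he hw => h u X hu hX he (hw.trans hs)

lemma CC.pp {s : ℕ} {β β' : List St} (h : CC s β β') (hβ : IsB β) (hw : wd β ≤ s) : PP β β' :=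
  h [] β isB_nil hβ (by simp) hw

/-- chains with decreasing widths in `[r, r + k)` following `β`; all suffixes of a bridge which are
not wider than the next bridge form extendable pairs with it -/
noncomputable def Rd (r : ℕ) : ℕ → List St → PS
  | 0, _ => 1
  | k + 1, β => Rd r k β + fs (fun β' => ii (IsBr (r + k) β' ∧ CC (r + k) β β') *
      (xl β' * Rd r k β'))

lemma Rr_le_Rd (r k : ℕ) (β : List St) (hw : β = [] ∨ r + k ≤ wd β) : Rr r k β ≤ Rd r k β := by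
  induction k generalizing β with
  | zero => exact le_rfl
  | succ k ih =>
    simp only [Rr, Rd]
    refine add_le_add (ih β (hw.imp id (fun h => by omega))) (fs_mono fun β' => ?_)
    by_cases h : IsBr (r + k) β' ∧ NCg β β'
    · rw [ii_of h, one_mul]
      have h2 : CC (r + k) β β' := by
        rcases hw with hw | hw
        · rw [hw]; exact CC_nil_left _ β'
        · exact CC_of_NCg h.2 (by rw [h.1.wd]) (by rw [h.1.wd]; omega)
      rw [ii_of (p := IsBr (r + k) β' ∧ CC (r + k) β β') ⟨h.1, h2⟩, one_mul]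
      gcongr
      exact ih β' (Or.inr (by rw [h.1.wd]))
    · rw [ii_not h, zero_mul]; exact zero_le

lemma Rd_le_succ (r k : ℕ) (β : List St) : Rd r k β ≤ Rd r (k + 1) β := by
  simp only [Rd]; exact le_self_add

lemma Rd_suf (r k : ℕ) (u β : List St) (hu : IsB u) : Rd r k (u ++ β) ≤ Rd r k β := by
  induction k with
  | zero => exact le_rfl
  | succ k ih =>
    simp only [Rd]
    apply add_le_add ih
    apply fs_mono
    intro β'
    gcongr
    exact ii_mono fun h' => ⟨h'.1, h'.2.suf hu⟩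

lemma Rd_le_one_add (r k : ℕ) (β : List St) : Rd r k β ≤
    1 + fs (fun β' => ii ((IsB β' ∧ r ≤ wd β' ∧ wd β' < r + k) ∧ CC r β β') *
      (xl β' * Rd r k β')) := by
  induction k with
  | zero => simp only [Rd]; exact le_self_add
  | succ k ih =>
    calc Rd r (k + 1) β = Rd r k β + fs (fun β' => ii (IsBr (r + k) β' ∧ CC (r + k) β β') *
          (xl β' * Rd r k β')) := rfl
      _ ≤ (1 + fs (fun β' => ii ((IsB β' ∧ r ≤ wd β' ∧ wd β' < r + k) ∧ CC r β β') *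
            (xl β' * Rd r k β'))) + fs (fun β' => ii (IsBr (r + k) β' ∧ CC r β β') *
          (xl β' * Rd r k β')) := by
          refine add_le_add ih (fs_mono fun β' => ?_)
          gcongr
          exact ii_mono fun h => ⟨h.1, CC.anti h.2 (by omega)⟩
      _ = 1 + (fs (fun β' => ii ((IsB β' ∧ r ≤ wd β' ∧ wd β' < r + k) ∧ CC r β β') *
            (xl β' * Rd r k β')) + fs (fun β' => ii (IsBr (r + k) β' ∧ CC r β β') *
          (xl β' * Rd r k β'))) := by ring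
      _ ≤ _ := by
          gcongr
          exact comb_aux r k (CC r β) _ _ (fun β' => by
            gcongr
            exact Rd_le_succ r k β')

/-- the increment at the width `r + l` -/
noncomputable def Dd (r l : ℕ) (β : List St) : PS :=
  fs (fun β' => ii (IsBr (r + l) β' ∧ CC (r + l) β β') * (xl β' * Rd r l β'))

/-- unrolled recursion -/
lemma Rd_eq (r k : ℕ) (β : List St) : Rd r k β = 1 + ∑ l ∈ Finset.range k, Dd r l β := by
  induction k with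
  | zero => simp [Rd]
  | succ k ih =>
    rw [Finset.sum_range_succ, ← add_assoc, ← ih]
    rfl

lemma Dd_suf (r l : ℕ) (u β : List St) (hu : IsB u) : Dd r l (u ++ β) ≤ Dd r l β := by
  unfold Dd
  apply fs_mono
  intro β'
  gcongr
  exact ii_mono fun h' => ⟨h'.1, h'.2.suf hu⟩

/-- the marks at distance `2 q + m`, `m < 2 q`, from the end, split according to the width of the
irreducible piece which covers them -/
theorem mark2 {γ : Type*} (q : ℕ) (P : List St → Prop) (QA : L3 → Prop) (QB : γ → Prop)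
    (g : List St → PS) (hA : L3 → PS) (hB : γ → PS) (c : γ → List St)
    (hP : ∀ β, P β → IsB β ∧ 8 * q ≤ wd β)
    (hPA : ∀ t, IsT t → wd t.2.1 < q → q ≤ wd t.2.2 → wd t.2.2 < 4 * q → P (cat3 t) →
      QA t ∧ g (cat3 t) ≤ hA t)
    (hPB : ∀ t, IsT t → q ≤ wd t.2.1 → wd t.2.2 < 4 * q → P (cat3 t) →
      ∃ y, QB y ∧ c y = cat3 t ∧ g (cat3 t) ≤ hB y) :
    cst ((2 * q : ℕ) : ℝ≥0∞) * fs (fun β => ii (P β) * g β) ≤
      fs (fun t : L3 => ii (IsT t ∧ QA t) * (cst (wd t.2.1 : ℝ≥0∞) * hA t)) +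
      cst ((2 * q : ℕ) : ℝ≥0∞) * fs (fun y => ii (QB y) * hB y) := by
  have h1 : cst ((2 * q : ℕ) : ℝ≥0∞) * fs (fun β => ii (P β) * g β) =
      fs (fun x : ℕ × List St => ii (x.1 < 2 * q ∧ P x.2) * g x.2) := by
    rw [cst_nat_eq, fs_mul_fs]
    congr 1; ext1 x
    rw [ii_and]; ring
  have h2 : fs (fun t : L3 => ii (IsT t ∧ QA t) * (cst (wd t.2.1 : ℝ≥0∞) * hA t)) =
      fs (fun x : ℕ × L3 => ii (x.1 < wd x.2.2.1 ∧ (IsT x.2 ∧ QA x.2)) * hA x.2) := by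
    conv_rhs => rw [fs_prod, fs_comm]
    apply fs_congr
    intro t
    rw [cst_nat_eq]
    simp only
    calc ii (IsT t ∧ QA t) * (fs (fun m => ii (m < wd t.2.1) * 1) * hA t)
        = (ii (IsT t ∧ QA t) * hA t) * fs (fun m => ii (m < wd t.2.1) * 1) := by ring
      _ = _ := by
        rw [mul_fs]
        congr 1; ext1 m
        rw [ii_and (m < wd t.2.1)]; ring
  have h3 : cst ((2 * q : ℕ) : ℝ≥0∞) * fs (fun y => ii (QB y) * hB y) =
      fs (fun x : ℕ × γ => ii (x.1 < 2 * q ∧ QB x.2) * hB x.2) := by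
    rw [cst_nat_eq, fs_mul_fs]
    congr 1; ext1 x
    rw [ii_and]; ring
  rw [h1, h2, h3]
  obtain ⟨CA, hCA⟩ : ∃ CA : ℕ × List St → Prop, ∀ x, CA x ↔ ((x.1 < 2 * q ∧ P x.2) ∧
      ∃ t : L3, IsT t ∧ cat3 t = x.2 ∧ wd t.2.2 ≤ 2 * q + x.1 ∧
        2 * q + x.1 < wd t.2.2 + wd t.2.1 ∧ wd t.2.1 < q) := ⟨_, fun _ => Iff.rfl⟩
  obtain ⟨CB, hCB⟩ : ∃ CB : ℕ × List St → Prop, ∀ x, CB x ↔ ((x.1 < 2 * q ∧ P x.2) ∧
      ∃ t : L3, IsT t ∧ cat3 t = x.2 ∧ wd t.2.2 ≤ 2 * q + x.1 ∧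
        2 * q + x.1 < wd t.2.2 + wd t.2.1 ∧ q ≤ wd t.2.1) := ⟨_, fun _ => Iff.rfl⟩
  have h4 : fs (fun x : ℕ × List St => ii (x.1 < 2 * q ∧ P x.2) * g x.2) ≤
      fs (fun x : ℕ × List St => ii (CA x) * g x.2) +
      fs (fun x : ℕ × List St => ii (CB x) * g x.2) := by
    rw [← fs_add]
    apply fs_mono
    rintro ⟨m, β⟩
    by_cases h : m < 2 * q ∧ P β
    · obtain ⟨hB', hr⟩ := hP β h.2
      obtain ⟨X, ι, Y, e, hX, hι, hY, h5, h6⟩ := exists_triple_r hB'.br (m := 2 * q + m) (by omega)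
      have hT : IsT (X, ι, Y) := ⟨hX, hι, hY⟩
      have h7 : wd ι < q ∨ q ≤ wd ι := lt_or_ge _ _
      rcases h7 with h7 | h7
      · have : CA (m, β) := (hCA _).2 ⟨h, (X, ι, Y), hT, e.symm, h5, h6, h7⟩
        rw [ii_of this, ii_of (p := (m, β).1 < 2 * q ∧ P (m, β).2) h]
        exact le_self_add
      · have : CB (m, β) := (hCB _).2 ⟨h, (X, ι, Y), hT, e.symm, h5, h6, h7⟩
        rw [ii_of this, ii_of (p := (m, β).1 < 2 * q ∧ P (m, β).2) h]
        exact le_add_self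
    · rw [ii_not (p := (m, β).1 < 2 * q ∧ P (m, β).2) h, zero_mul]; exact zero_le
  refine h4.trans (add_le_add ?_ ?_)
  · refine fs_cover _ _ _ _ (fun x : ℕ × L3 => (wd x.2.2.2 + x.1 - 2 * q, cat3 x.2)) ?_
    rintro ⟨m, β⟩ hx
    rw [hCA] at hx
    obtain ⟨⟨hm, hβ⟩, ⟨X, ι, Y⟩, hT, rfl, h5, h6, h7⟩ := hx
    simp only at hm hβ h5 h6 h7
    obtain ⟨h8, h9⟩ := hPA _ hT h7 (by simp only; omega) (by simp only; omega) hβ
    refine ⟨(2 * q + m - wd Y, (X, ι, Y)), ⟨?_, hT, h8⟩, ?_, h9⟩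
    · simp only; omega
    · simp only [Prod.mk.injEq, and_true]
      omega
  · refine fs_cover _ _ _ _ (fun x : ℕ × γ => (x.1, c x.2)) ?_
    rintro ⟨m, β⟩ hx
    rw [hCB] at hx
    obtain ⟨⟨hm, hβ⟩, ⟨X, ι, Y⟩, hT, rfl, h5, h6, h7⟩ := hx
    simp only at hm hβ h5 h6 h7
    obtain ⟨y, h8, h9, h10⟩ := hPB _ hT h7 (by simp only; omega) hβ
    exact ⟨(m, y), ⟨hm, h8⟩, by simp only [h9], h10⟩

/-- an irreducible piece of width at least `q` followed by a bridge of width less than `4 q` -/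
def BI (q : ℕ) (p : LL) : Prop := (Irr p.1 ∧ q ≤ wd p.1) ∧ (IsB p.2 ∧ wd p.2 < 4 * q)

lemma first_unique {ι ι' Y Y' : List St} (h1 : Irr ι) (h2 : Irr ι') (h3 : IsB Y) (h4 : IsB Y')
    (he : ι ++ Y = ι' ++ Y') : ι = ι' ∧ Y = Y' := by
  have p1 := Irr.pos h1
  have p2 := Irr.pos h2
  have h0 : wd ([] : List St) = 0 := by simp [wd]
  obtain ⟨-, h5, h6⟩ := triple_unique (m := 0) isB_nil h1 h3 isB_nil h2 h4 (by simpa using he)
    (by omega) (by omega) (by omega) (by omega)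
  exact ⟨h5, h6⟩

/-- the part of the chain after a bridge which is split with the wide piece attached to the right -/
noncomputable def Aa (q k : ℕ) : PS :=
  fs (fun X => ii (IsB X ∧ (q ≤ wd X ∧ wd X < 4 * q)) * (xl X * Rd (8 * q) k X))

noncomputable def Ba (q k : ℕ) : PS :=
  fs (fun p : LL => ii (BI q p ∧ wd p.1 + wd p.2 < 8 * q + k) *
    (xl p.1 * xl p.2 * Rd (8 * q) k (p.1 ++ p.2)))

/-- `1 / (2 q)` -/
noncomputable def kq (q : ℕ) : PS := cst (((2 * q : ℕ) : ℝ≥0∞)⁻¹)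

lemma kq_mul {q : ℕ} (hq : 1 ≤ q) : kq q * cst ((2 * q : ℕ) : ℝ≥0∞) = 1 :=
  cst_inv_mul (r := 2 * q) (by omega)

noncomputable def Ha (q k W : ℕ) : PS := 1 + kq q * Ks W * Aa q k + Ba q k

theorem outer_step (q k W : ℕ) (hW : 16 * q ≤ W) (hk : k ≤ 8 * q) (β : List St)
    (F : List St → PS) (hF : ∀ u X, IsB u → F (u ++ X) ≤ F X) :
    cst ((2 * q : ℕ) : ℝ≥0∞) * fs (fun β' =>
      ii ((IsB β' ∧ 8 * q ≤ wd β' ∧ wd β' < 8 * q + k) ∧ CC (8 * q) β β') * (xl β' * F β')) ≤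
    Nc (8 * q) W β * (Ks W * fs (fun X => ii (IsB X ∧ (q ≤ wd X ∧ wd X < 4 * q)) *
      (xl X * F X))) +
    cst ((2 * q : ℕ) : ℝ≥0∞) * (Nc (8 * q) W β * fs (fun p : LL =>
      ii (BI q p ∧ wd p.1 + wd p.2 < 8 * q + k) * (xl p.1 * xl p.2 * F (p.1 ++ p.2)))) := by
  have e1 : Nc (8 * q) W β * (Ks W * fs (fun X => ii (IsB X ∧ (q ≤ wd X ∧ wd X < 4 * q)) *
      (xl X * F X))) = fs (fun t : L3 => ii (IsT t ∧ ((wd t.1 ≤ W ∧ CC (8 * q) β t.1) ∧
        wd t.2.1 ≤ W ∧ (q ≤ wd t.2.2 ∧ wd t.2.2 < 4 * q))) *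
        (cst (wd t.2.1 : ℝ≥0∞) * (xl t.1 * xl t.2.1 * (xl t.2.2 * F t.2.2)))) := by
    unfold Nc Ks
    rw [fs_mul_fs, fs_mul_fs]
    apply fs_congr
    rintro ⟨a, b, c⟩
    simp only [IsT, ii_and]
    ring
  have e2 : Nc (8 * q) W β * fs (fun p : LL =>
      ii (BI q p ∧ wd p.1 + wd p.2 < 8 * q + k) * (xl p.1 * xl p.2 * F (p.1 ++ p.2))) =
      fs (fun y : List St × LL => ii (((IsB y.1 ∧ wd y.1 ≤ W) ∧ CC (8 * q) β y.1) ∧
        (BI q y.2 ∧ wd y.2.1 + wd y.2.2 < 8 * q + k)) *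
        (xl y.1 * (xl y.2.1 * xl y.2.2 * F (y.2.1 ++ y.2.2)))) := by
    unfold Nc
    rw [fs_mul_fs]
    apply fs_congr
    rintro ⟨a, b⟩
    simp only [ii_and]
    ring
  rw [e1, e2]
  refine mark2 q _ _ _ (fun β' => xl β' * F β') _ _ (fun y : List St × LL => y.1 ++ (y.2.1 ++ y.2.2))
    ?_ ?_ ?_
  · rintro β' ⟨⟨h1, h2, h3⟩, h4⟩
    exact ⟨h1, h2⟩
  · rintro t ht hlt h5 h6 ⟨⟨h1, h2, h3⟩, h4⟩
    have h7 := ht.wd
    refine ⟨⟨⟨by omega, ?_⟩, by omega, h5, h6⟩, ?_⟩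
    · unfold cat3 at h4
      exact h4.pre ht.1 (ht.2.1.1.append ht.2.2)
    · unfold cat3
      rw [xl_append, xl_append]
      calc xl t.1 * (xl t.2.1 * xl t.2.2) * F (t.1 ++ (t.2.1 ++ t.2.2))
          ≤ xl t.1 * (xl t.2.1 * xl t.2.2) * F t.2.2 := by
            gcongr
            exact (hF _ _ ht.1).trans (hF _ _ ht.2.1.1)
        _ = _ := by ring
  · rintro t ht h5 h6 ⟨⟨h1, h2, h3⟩, h4⟩
    have h7 := ht.wd
    refine ⟨(t.1, (t.2.1, t.2.2)), ⟨⟨⟨ht.1, ?_⟩, ?_⟩, ⟨⟨ht.2.1, h5⟩, ⟨ht.2.2, h6⟩⟩, ?_⟩, rfl, ?_⟩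
    · simp only; omega
    · unfold cat3 at h4
      exact h4.pre ht.1 (ht.2.1.1.append ht.2.2)
    · simp only; omega
    · unfold cat3
      simp only
      rw [xl_append, xl_append]
      calc xl t.1 * (xl t.2.1 * xl t.2.2) * F (t.1 ++ (t.2.1 ++ t.2.2))
          ≤ xl t.1 * (xl t.2.1 * xl t.2.2) * F (t.2.1 ++ t.2.2) := by
            gcongr
            exact hF _ _ ht.1
        _ = _ := by ring

lemma Rd_le_Nc {q k W : ℕ} (hq : 1 ≤ q) (hW : 16 * q ≤ W) (hk : k ≤ 8 * q) (β : List St) :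
    Rd (8 * q) k β ≤ Nc (8 * q) W β * Ha q k W := by
  have h1 := outer_step q k W hW hk β (Rd (8 * q) k) (fun u X hu => Rd_suf (8 * q) k u X hu)
  have h2 := Rd_le_one_add (8 * q) k β
  set S := fs (fun β' => ii ((IsB β' ∧ 8 * q ≤ wd β' ∧ wd β' < 8 * q + k) ∧ CC (8 * q) β β') *
      (xl β' * Rd (8 * q) k β')) with hS
  have h3 : S ≤ kq q * (Nc (8 * q) W β * (Ks W * Aa q k)) + Nc (8 * q) W β * Ba q k := by
    calc S = kq q * (cst ((2 * q : ℕ) : ℝ≥0∞) * S) := by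
          rw [← mul_assoc, kq_mul hq, one_mul]
      _ ≤ kq q * (Nc (8 * q) W β * (Ks W * Aa q k) +
          cst ((2 * q : ℕ) : ℝ≥0∞) * (Nc (8 * q) W β * Ba q k)) := mul_le_mul' le_rfl h1
      _ = kq q * (Nc (8 * q) W β * (Ks W * Aa q k)) +
          (kq q * cst ((2 * q : ℕ) : ℝ≥0∞)) * (Nc (8 * q) W β * Ba q k) := by ring
      _ = _ := by rw [kq_mul hq, one_mul]
  calc Rd (8 * q) k β ≤ 1 + S := h2
    _ ≤ Nc (8 * q) W β * 1 + (kq q * (Nc (8 * q) W β * (Ks W * Aa q k)) +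
        Nc (8 * q) W β * Ba q k) := by
        refine add_le_add ?_ h3
        rw [mul_one]; exact one_le_Nc (8 * q) W β
    _ = _ := by unfold Ha; ring

/-- the pairs with both folds of a whole bridge of width `8 q + l` -/
noncomputable def Ee (q l W : ℕ) (Z : List St) : PS :=
  fs (fun β' => ii (IsBr (8 * q + l) β' ∧ PP Z β') * (xl β' * Nc (8 * q) W β'))

lemma Dd_le_Ee {q l W : ℕ} (hq : 1 ≤ q) (hW : 16 * q ≤ W) (hl : l ≤ 8 * q) {Z : List St}
    (hZ : IsB Z) (hw : wd Z ≤ 8 * q + l) : Dd (8 * q) l Z ≤ Ee q l W Z * Ha q l W := by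
  unfold Dd Ee
  rw [fs_mul]
  apply fs_mono
  intro β'
  by_cases h : IsBr (8 * q + l) β' ∧ CC (8 * q + l) Z β'
  · rw [ii_of h, ii_of (p := IsBr (8 * q + l) β' ∧ PP Z β') ⟨h.1, CC.pp h.2 hZ hw⟩, one_mul,
      one_mul, mul_assoc]
    gcongr
    exact Rd_le_Nc hq hW hl β'
  · rw [ii_not h, zero_mul]; exact zero_le

noncomputable def ya (q l W : ℕ) : PS :=
  fs (fun X => ii (IsB X ∧ (q ≤ wd X ∧ wd X < 4 * q)) * (xl X * Ee q l W X))

noncomputable def yt (q l W : ℕ) : PS :=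
  fs (fun p : LL => ii (BI q p ∧ wd p.1 + wd p.2 = 8 * q + l) *
    (xl p.1 * xl p.2 * Nc (8 * q) W p.2))

noncomputable def yb (q l W : ℕ) : PS :=
  fs (fun p : LL => ii (BI q p ∧ wd p.1 + wd p.2 ≤ 8 * q + l) *
    (xl p.1 * xl p.2 * Ee q l W (p.1 ++ p.2)))

noncomputable def LU (q : ℕ) : PS :=
  fs (fun p : LL => ii (BI q p ∧ wd p.1 + wd p.2 < 16 * q) * (xl p.1 * xl p.2))

lemma Aa_le {q k W : ℕ} (hq : 1 ≤ q) (hW : 16 * q ≤ W) (hk : k ≤ 8 * q) :
    Aa q k ≤ Us W + ∑ l ∈ Finset.range k, ya q l W * Ha q l W := by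
  calc Aa q k = fs (fun X => ii (IsB X ∧ (q ≤ wd X ∧ wd X < 4 * q)) * xl X +
        ∑ l ∈ Finset.range k, ii (IsB X ∧ (q ≤ wd X ∧ wd X < 4 * q)) *
          (xl X * Dd (8 * q) l X)) := by
        unfold Aa
        apply fs_congr
        intro X
        rw [Rd_eq, mul_add, mul_one, mul_add, Finset.mul_sum, Finset.mul_sum]
    _ ≤ fs (fun X => ii (IsB X ∧ wd X ≤ W) * xl X + ∑ l ∈ Finset.range k,
          (ii (IsB X ∧ (q ≤ wd X ∧ wd X < 4 * q)) * (xl X * Ee q l W X)) * Ha q l W) := by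
        apply fs_mono
        intro X
        refine add_le_add ?_ (Finset.sum_le_sum ?_)
        · gcongr
          exact ii_mono fun h => ⟨h.1, by omega⟩
        intro l hl
        rw [Finset.mem_range] at hl
        by_cases h : IsB X ∧ (q ≤ wd X ∧ wd X < 4 * q)
        · rw [ii_of h, one_mul, one_mul, mul_assoc]
          gcongr
          exact Dd_le_Ee hq hW (by omega) h.1 (by omega)
        · rw [ii_not h, zero_mul]; exact zero_le
    _ = _ := by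
        rw [fs_add, fs_sum]
        congr 1
        apply Finset.sum_congr rfl
        intro l _
        rw [← fs_mul]
        rfl

/-- unrolling after a bridge with a wide first piece -/
lemma Rd_wide {q k W : ℕ} (hq : 1 ≤ q) (hW : 16 * q ≤ W) (hk : k ≤ 8 * q) {p : LL}
    (hp : BI q p) (hz : wd p.1 + wd p.2 < 8 * q + k) :
    Rd (8 * q) k (p.1 ++ p.2) ≤ 1 + ∑ l ∈ Finset.range k,
      (ii (wd p.1 + wd p.2 = 8 * q + l) * (Nc (8 * q) W p.2 * Ha q l W) +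
        ii (wd p.1 + wd p.2 ≤ 8 * q + l) * (Ee q l W (p.1 ++ p.2) * Ha q l W)) := by
  obtain ⟨⟨h1, h2⟩, ⟨h3, h4⟩⟩ := hp
  have hwZ := wd_append h1.1 h3
  have hZ := h1.1.append h3
  obtain ⟨z, hzd⟩ : ∃ z, z = wd p.1 + wd p.2 := ⟨_, rfl⟩
  rw [← hzd] at hz hwZ ⊢
  rw [Rd_eq, Finset.sum_add_distrib]
  refine add_le_add le_rfl ?_
  have k1 : ∑ l ∈ Finset.range k, Dd (8 * q) l (p.1 ++ p.2) ≤
      ∑ l ∈ Finset.range k, (ii (8 * q + l < z) * Dd (8 * q) l p.2 +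
        ii (z ≤ 8 * q + l) * (Ee q l W (p.1 ++ p.2) * Ha q l W)) := by
    apply Finset.sum_le_sum
    intro l hl
    rw [Finset.mem_range] at hl
    rcases Nat.lt_or_ge (8 * q + l) z with h | h
    · rw [ii_of h, one_mul]
      exact (Dd_suf _ _ _ _ h1.1).trans le_self_add
    · rw [ii_of (p := z ≤ 8 * q + l) h, one_mul]
      exact (Dd_le_Ee hq hW (by omega) hZ (by omega)).trans le_add_self
  refine k1.trans ?_
  rw [Finset.sum_add_distrib]
  refine add_le_add ?_ le_rfl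
  rcases Nat.lt_or_ge (8 * q) z with h | h
  · obtain ⟨m, rfl⟩ := Nat.exists_eq_add_of_le h.le
    have hm : m < k := by omega
    have k2 : ∑ l ∈ Finset.range k, ii (8 * q + l < 8 * q + m) * Dd (8 * q) l p.2 ≤
        Rd (8 * q) m p.2 := by
      rw [Rd_eq]
      calc ∑ l ∈ Finset.range k, ii (8 * q + l < 8 * q + m) * Dd (8 * q) l p.2
          = ∑ l ∈ Finset.range m, ii (8 * q + l < 8 * q + m) * Dd (8 * q) l p.2 := by
            symm
            apply Finset.sum_subset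
            · intro l hl
              rw [Finset.mem_range] at hl ⊢
              omega
            · intro l _ hl
              rw [Finset.mem_range] at hl
              rw [ii_not (by omega), zero_mul]
        _ ≤ ∑ l ∈ Finset.range m, Dd (8 * q) l p.2 := by
            apply Finset.sum_le_sum
            intro l _
            calc _ ≤ 1 * Dd (8 * q) l p.2 := by gcongr; exact ii_le_one _
              _ = _ := one_mul _
        _ ≤ _ := le_add_self
    refine k2.trans ((Rd_le_Nc hq hW (by omega) p.2).trans ?_)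
    calc Nc (8 * q) W p.2 * Ha q m W
        = ii (8 * q + m = 8 * q + m) * (Nc (8 * q) W p.2 * Ha q m W) := by
          rw [ii_of rfl, one_mul]
      _ ≤ _ := Finset.single_le_sum
          (f := fun l => ii (8 * q + m = 8 * q + l) * (Nc (8 * q) W p.2 * Ha q l W))
          (fun _ _ => zero_le) (Finset.mem_range.mpr hm)
  · refine le_trans (le_of_eq ?_) zero_le
    apply Finset.sum_eq_zero
    intro l _
    rw [ii_not (by omega), zero_mul]

lemma Ba_le {q k W : ℕ} (hq : 1 ≤ q) (hW : 16 * q ≤ W) (hk : k ≤ 8 * q) :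
    Ba q k ≤ LU q + ∑ l ∈ Finset.range k, (yt q l W + yb q l W) * Ha q l W := by
  calc Ba q k ≤ fs (fun p : LL => ii (BI q p ∧ wd p.1 + wd p.2 < 16 * q) * (xl p.1 * xl p.2) +
        ∑ l ∈ Finset.range k, ((ii (BI q p ∧ wd p.1 + wd p.2 = 8 * q + l) *
          (xl p.1 * xl p.2 * Nc (8 * q) W p.2)) * Ha q l W +
          (ii (BI q p ∧ wd p.1 + wd p.2 ≤ 8 * q + l) *
          (xl p.1 * xl p.2 * Ee q l W (p.1 ++ p.2))) * Ha q l W)) := by
        unfold Ba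
        apply fs_mono
        intro p
        by_cases h : BI q p ∧ wd p.1 + wd p.2 < 8 * q + k
        · rw [ii_of h, one_mul]
          refine (mul_le_mul' le_rfl (Rd_wide hq hW hk h.1 h.2)).trans ?_
          rw [mul_add, mul_one, Finset.mul_sum]
          refine add_le_add ?_ (Finset.sum_le_sum ?_)
          · rw [ii_of (p := BI q p ∧ wd p.1 + wd p.2 < 16 * q) ⟨h.1, by omega⟩, one_mul]
          · intro l _
            rw [ii_and, ii_and, ii_of h.1, one_mul, one_mul]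
            apply le_of_eq
            ring
        · rw [ii_not h, zero_mul]; exact zero_le
    _ = _ := by
        rw [fs_add, fs_sum]
        congr 1
        apply Finset.sum_congr rfl
        intro l _
        rw [fs_add, ← fs_mul, ← fs_mul, ← add_mul]
        rfl

/-- the increments in the Gronwall inequality -/
noncomputable def aa (q l W : ℕ) : PS := kq q * Ks W * ya q l W + (yt q l W + yb q l W)

lemma Ha_le {q k W : ℕ} (hq : 1 ≤ q) (hW : 16 * q ≤ W) (hk : k ≤ 8 * q) :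
    Ha q k W ≤ (1 + kq q * Ks W * Us W + LU q) + ∑ l ∈ Finset.range k, aa q l W * Ha q l W := by
  calc Ha q k W ≤ 1 + kq q * Ks W * (Us W + ∑ l ∈ Finset.range k, ya q l W * Ha q l W) +
        (LU q + ∑ l ∈ Finset.range k, (yt q l W + yb q l W) * Ha q l W) := by
        unfold Ha
        gcongr
        · exact Aa_le hq hW hk
        · exact Ba_le hq hW hk
    _ = (1 + kq q * Ks W * Us W + LU q) + (∑ l ∈ Finset.range k,
          kq q * Ks W * (ya q l W * Ha q l W) +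
          ∑ l ∈ Finset.range k, (yt q l W + yb q l W) * Ha q l W) := by
        rw [← Finset.mul_sum]; ring
    _ = _ := by
        rw [← Finset.sum_add_distrib]
        congr 1
        apply Finset.sum_congr rfl
        intro l _
        unfold aa; ring

/-- the bridges forming an extendable pair with `Z`, of comparable width -/
noncomputable def Lq (q ρ' : ℕ) (Z : List St) : PS :=
  fs (fun Y => ii (IsB Y ∧ (q ≤ wd Y ∧ wd Y ≤ 16 * q) ∧ NL ρ' Y ∧ PP Z Y) * xl Y)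

lemma Irr.NL_append {q : ℕ} {X ι : List St} (hX : IsB X) (hι : Irr ι) (hq : q ≤ wd ι) :
    NL q (X ++ ι) := by
  intro c X1 X2 hs
  have s1 : Spl (wd X) (X ++ ι) X ι := ⟨rfl, hX.br, hι.1⟩
  rcases le_total c (wd X) with h | h
  · obtain ⟨M, h1, h2, h3⟩ := hs.refine s1 h
    right
    rw [h2, wd_append h3.isB hι.1]
    omega
  · obtain ⟨M, h1, h2, h3⟩ := s1.refine hs h
    rcases hι.2.2 (c - wd X) M X2 ⟨h2, h3, hs.2.2⟩ with h4 | h4
    · right
      rw [h2, h4, List.nil_append] at hq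
      exact hq
    · left; exact h4

lemma Irr.NF_append {q : ℕ} {ι Y : List St} (hY : IsB Y) (hι : Irr ι) (hq : q ≤ wd ι) :
    NF q (ι ++ Y) := by
  intro c X1 X2 hs
  have s1 : Spl (wd ι) (ι ++ Y) ι Y := ⟨rfl, hι.1.br, hY⟩
  rcases le_total (wd ι) c with h | h
  · right; omega
  · obtain ⟨M, h1, h2, h3⟩ := hs.refine s1 h
    rcases hι.2.2 c X1 M ⟨h1, hs.2.1, h3.isB⟩ with h4 | h4
    · left
      have := hs.2.1.wd
      rw [h4] at this
      rw [← this]; simp [wd]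
    · right
      have h5 := hs.2.1.wd
      rw [h4, List.append_nil] at h1
      rw [← h5, ← h1]
      exact hq

theorem inner_step (q k W : ℕ) (hW : 16 * q ≤ W) (hk : k ≤ 8 * q) (Z : List St)
    (F : List St → PS) (hF : ∀ u X, IsB u → F (u ++ X) ≤ F X) :
    cst ((2 * q : ℕ) : ℝ≥0∞) * fs (fun β' =>
      ii ((IsB β' ∧ 8 * q ≤ wd β' ∧ wd β' < 8 * q + k) ∧ PP Z β') * (xl β' * F β')) ≤
    Ks W * Lq q 0 Z * fs (fun X => ii (IsB X ∧ wd X ≤ 8 * q) * (xl X * F X)) +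
    cst ((2 * q : ℕ) : ℝ≥0∞) *
      (Lq q q Z * fs (fun X => ii (IsB X ∧ wd X ≤ 8 * q) * (xl X * F X))) := by
  have e1 : Ks W * Lq q 0 Z * fs (fun X => ii (IsB X ∧ wd X ≤ 8 * q) * (xl X * F X)) =
      fs (fun t : L3 => ii (IsT t ∧ (((q ≤ wd t.1 ∧ wd t.1 ≤ 16 * q) ∧ NL 0 t.1 ∧ PP Z t.1) ∧
        wd t.2.1 ≤ W ∧ wd t.2.2 ≤ 8 * q)) *
        (cst (wd t.2.1 : ℝ≥0∞) * (xl t.1 * xl t.2.1 * (xl t.2.2 * F t.2.2)))) := by
    rw [mul_comm (Ks W), mul_assoc]
    unfold Lq Ks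
    rw [fs_mul_fs, fs_mul_fs]
    apply fs_congr
    rintro ⟨a, b, c⟩
    simp only [IsT, ii_and]
    ring
  have e2 : Lq q q Z * fs (fun X => ii (IsB X ∧ wd X ≤ 8 * q) * (xl X * F X)) =
      fs (fun y : LL => ii ((IsB y.1 ∧ (q ≤ wd y.1 ∧ wd y.1 ≤ 16 * q) ∧ NL q y.1 ∧ PP Z y.1) ∧
        (IsB y.2 ∧ wd y.2 ≤ 8 * q)) * (xl y.1 * (xl y.2 * F y.2))) := by
    unfold Lq
    rw [fs_mul_fs]
    apply fs_congr
    rintro ⟨a, b⟩
    simp only [ii_and]
    ring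
  rw [e1, e2]
  refine mark2 q _ _ _ (fun β' => xl β' * F β') _ _ (fun y : LL => y.1 ++ y.2) ?_ ?_ ?_
  · rintro β' ⟨⟨h1, h2, h3⟩, h4⟩
    exact ⟨h1, h2⟩
  · rintro t ht hlt h5 h6 ⟨⟨h1, h2, h3⟩, h4⟩
    have h7 := ht.wd
    refine ⟨⟨⟨⟨by omega, by omega⟩, NL_zero _, ?_⟩, by omega, by omega⟩, ?_⟩
    · unfold cat3 at h4
      exact h4.pre ht.1 (ht.2.1.1.append ht.2.2)
    · unfold cat3
      rw [xl_append, xl_append]
      calc xl t.1 * (xl t.2.1 * xl t.2.2) * F (t.1 ++ (t.2.1 ++ t.2.2))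
          ≤ xl t.1 * (xl t.2.1 * xl t.2.2) * F t.2.2 := by
            gcongr
            exact (hF _ _ ht.1).trans (hF _ _ ht.2.1.1)
        _ = _ := by ring
  · rintro t ht h5 h6 ⟨⟨h1, h2, h3⟩, h4⟩
    have h7 := ht.wd
    have h8 := wd_append ht.1 ht.2.1.1
    have hL := ht.1.append ht.2.1.1
    have hc : cat3 t = (t.1 ++ t.2.1) ++ t.2.2 := by unfold cat3; simp
    rw [hc] at h4
    refine ⟨(t.1 ++ t.2.1, t.2.2), ⟨⟨hL, ⟨?_, ?_⟩, Irr.NL_append ht.1 ht.2.1 h5,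
      h4.pre hL ht.2.2⟩, ht.2.2, ?_⟩, hc.symm, ?_⟩
    · simp only; omega
    · simp only; omega
    · simp only; omega
    · simp only
      rw [hc, xl_append (t.1 ++ t.2.1)]
      calc xl (t.1 ++ t.2.1) * xl t.2.2 * F (t.1 ++ t.2.1 ++ t.2.2)
          ≤ xl (t.1 ++ t.2.1) * xl t.2.2 * F t.2.2 := by
            gcongr
            exact hF _ _ hL
        _ = _ := by ring

lemma sum_Ee_le {q k W : ℕ} (hq : 1 ≤ q) (hW : 16 * q ≤ W) (hk : k ≤ 8 * q) (Z : List St) :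
    ∑ l ∈ Finset.range k, Ee q l W Z ≤
      (kq q * Ks W * Lq q 0 Z + Lq q q Z) * Ec (8 * q) W := by
  have h1 := inner_step q k W hW hk Z (Nc (8 * q) W) (fun u X hu => Nc_suf (8 * q) W u X hu)
  have h2 : ∑ l ∈ Finset.range k, Ee q l W Z ≤ fs (fun β' =>
      ii ((IsB β' ∧ 8 * q ≤ wd β' ∧ wd β' < 8 * q + k) ∧ PP Z β') *
        (xl β' * Nc (8 * q) W β')) := comb_sum (8 * q) k (PP Z) (fun β' => xl β' * Nc (8 * q) W β')
  refine h2.trans ?_
  obtain ⟨S, hS⟩ : ∃ S, S = fs (fun β' =>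
      ii ((IsB β' ∧ 8 * q ≤ wd β' ∧ wd β' < 8 * q + k) ∧ PP Z β') *
        (xl β' * Nc (8 * q) W β')) := ⟨_, rfl⟩
  rw [← hS] at h1 ⊢
  have e : fs (fun X => ii (IsB X ∧ wd X ≤ 8 * q) * (xl X * Nc (8 * q) W X)) = Ec (8 * q) W := rfl
  rw [e] at h1
  calc S = kq q * (cst ((2 * q : ℕ) : ℝ≥0∞) * S) := by
        rw [← mul_assoc, kq_mul hq, one_mul]
    _ ≤ kq q * (Ks W * Lq q 0 Z * Ec (8 * q) W +
        cst ((2 * q : ℕ) : ℝ≥0∞) * (Lq q q Z * Ec (8 * q) W)) := mul_le_mul' le_rfl h1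
    _ = kq q * (Ks W * Lq q 0 Z * Ec (8 * q) W) +
        (kq q * cst ((2 * q : ℕ) : ℝ≥0∞)) * (Lq q q Z * Ec (8 * q) W) := by ring
    _ = _ := by rw [kq_mul hq]; ring

lemma sum_Lq_A (q ρ' : ℕ) :
    fs (fun X => ii (IsB X ∧ (q ≤ wd X ∧ wd X < 4 * q)) * (xl X * Lq q ρ' X)) ≤ Ps q 0 ρ' := by
  have e : fs (fun X => ii (IsB X ∧ (q ≤ wd X ∧ wd X < 4 * q)) * (xl X * Lq q ρ' X)) =
      fs (fun p : LL => ii ((IsB p.1 ∧ (q ≤ wd p.1 ∧ wd p.1 < 4 * q)) ∧
        (IsB p.2 ∧ (q ≤ wd p.2 ∧ wd p.2 ≤ 16 * q) ∧ NL ρ' p.2 ∧ PP p.1 p.2)) *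
        (xl p.1 * xl p.2)) := by
    rw [fs_prod]
    apply fs_congr
    intro X
    unfold Lq
    rw [mul_fs, mul_fs]
    apply fs_congr
    intro Y
    rw [ii_and (IsB X ∧ (q ≤ wd X ∧ wd X < 4 * q))]
    ring
  rw [e]
  unfold Ps
  apply fs_mono
  intro p
  gcongr
  exact ii_mono fun h => ⟨⟨h.1.1, h.2.1⟩, ⟨⟨h.1.2.1, by omega⟩, h.2.2.1⟩, h.2.2.2.2, NF_zero _,
    h.2.2.2.1⟩

lemma sum_Lq_B (q ρ' : ℕ) :
    fs (fun p : LL => ii (BI q p ∧ wd p.1 + wd p.2 ≤ 16 * q) *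
      (xl p.1 * xl p.2 * Lq q ρ' (p.1 ++ p.2))) ≤ Ps q q ρ' := by
  have e : fs (fun p : LL => ii (BI q p ∧ wd p.1 + wd p.2 ≤ 16 * q) *
      (xl p.1 * xl p.2 * Lq q ρ' (p.1 ++ p.2))) =
      fs (fun y : LL × List St => ii ((BI q y.1 ∧ wd y.1.1 + wd y.1.2 ≤ 16 * q) ∧
        (IsB y.2 ∧ (q ≤ wd y.2 ∧ wd y.2 ≤ 16 * q) ∧ NL ρ' y.2 ∧ PP (y.1.1 ++ y.1.2) y.2)) *
        (xl y.1.1 * xl y.1.2 * xl y.2)) := by
    rw [fs_prod (fun y : LL × List St => _)]
    apply fs_congr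
    intro p
    unfold Lq
    rw [mul_fs, mul_fs]
    apply fs_congr
    intro Y
    rw [ii_and (BI q p ∧ wd p.1 + wd p.2 ≤ 16 * q)]
    ring
  rw [e]
  unfold Ps
  refine fs_inj _ _ _ _ (fun y : LL × List St => (y.1.1 ++ y.1.2, y.2)) ?_ ?_ ?_
  · rintro ⟨⟨ι, X⟩, Y⟩ ⟨⟨ι', X'⟩, Y'⟩ ⟨⟨⟨⟨a1, a2⟩, ⟨a3, a4⟩⟩, -⟩, -⟩
      ⟨⟨⟨⟨b1, b2⟩, ⟨b3, b4⟩⟩, -⟩, -⟩ heq
    simp only [Prod.mk.injEq] at heq
    obtain ⟨rfl, rfl⟩ := first_unique a1 b1 a3 b3 heq.1
    rw [heq.2]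
  · rintro ⟨⟨ι, X⟩, Y⟩ ⟨⟨⟨⟨a1, a2⟩, ⟨a3, a4⟩⟩, a5⟩, ⟨b1, b2, b3, b4⟩⟩
    simp only at a1 a2 a3 a4 a5 b1 b2 b3 b4 ⊢
    have hw := wd_append a1.1 a3
    have k1 : q ≤ wd (ι ++ X) := by omega
    have k2 : wd (ι ++ X) ≤ 16 * q := by omega
    exact ⟨⟨a1.1.append a3, b1⟩, ⟨⟨k1, k2⟩, b2⟩, b4, Irr.NF_append a3 a1 a2, b3⟩
  · rintro ⟨⟨ι, X⟩, Y⟩ -
    simp only
    rw [xl_append]

lemma sum_ya_le {q k W : ℕ} (hq : 1 ≤ q) (hW : 16 * q ≤ W) (hk : k ≤ 8 * q) :
    ∑ l ∈ Finset.range k, ya q l W ≤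
      (kq q * Ks W * Ps q 0 0 + Ps q 0 q) * Ec (8 * q) W := by
  calc ∑ l ∈ Finset.range k, ya q l W
      = fs (fun X => ii (IsB X ∧ (q ≤ wd X ∧ wd X < 4 * q)) *
          (xl X * ∑ l ∈ Finset.range k, Ee q l W X)) := by
        unfold ya
        rw [← fs_sum]
        apply fs_congr
        intro X
        rw [← Finset.mul_sum, ← Finset.mul_sum]
    _ ≤ fs (fun X => ii (IsB X ∧ (q ≤ wd X ∧ wd X < 4 * q)) *
          (xl X * ((kq q * Ks W * Lq q 0 X + Lq q q X) * Ec (8 * q) W))) :=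
        fs_mono fun X => mul_le_mul' le_rfl (mul_le_mul' le_rfl (sum_Ee_le hq hW hk X))
    _ = (kq q * Ks W * fs (fun X => ii (IsB X ∧ (q ≤ wd X ∧ wd X < 4 * q)) *
          (xl X * Lq q 0 X)) + fs (fun X => ii (IsB X ∧ (q ≤ wd X ∧ wd X < 4 * q)) *
          (xl X * Lq q q X))) * Ec (8 * q) W := by
        rw [mul_fs, ← fs_add, fs_mul]
        apply fs_congr
        intro X
        ring
    _ ≤ _ := by
        gcongr
        · exact sum_Lq_A q 0
        · exact sum_Lq_A q q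

lemma sum_yb_le {q k W : ℕ} (hq : 1 ≤ q) (hW : 16 * q ≤ W) (hk : k ≤ 8 * q) :
    ∑ l ∈ Finset.range k, yb q l W ≤
      (kq q * Ks W * Ps q q 0 + Ps q q q) * Ec (8 * q) W := by
  calc ∑ l ∈ Finset.range k, yb q l W
      ≤ ∑ l ∈ Finset.range k, fs (fun p : LL => ii (BI q p ∧ wd p.1 + wd p.2 ≤ 16 * q) *
          (xl p.1 * xl p.2 * Ee q l W (p.1 ++ p.2))) := by
        apply Finset.sum_le_sum
        intro l hl
        rw [Finset.mem_range] at hl
        unfold yb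
        apply fs_mono
        intro p
        gcongr
        exact ii_mono fun h => ⟨h.1, by omega⟩
    _ = fs (fun p : LL => ii (BI q p ∧ wd p.1 + wd p.2 ≤ 16 * q) *
          (xl p.1 * xl p.2 * ∑ l ∈ Finset.range k, Ee q l W (p.1 ++ p.2))) := by
        rw [← fs_sum]
        apply fs_congr
        intro X
        rw [← Finset.mul_sum, ← Finset.mul_sum]
    _ ≤ fs (fun p : LL => ii (BI q p ∧ wd p.1 + wd p.2 ≤ 16 * q) *
          (xl p.1 * xl p.2 * ((kq q * Ks W * Lq q 0 (p.1 ++ p.2) + Lq q q (p.1 ++ p.2)) *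
            Ec (8 * q) W))) :=
        fs_mono fun p => mul_le_mul' le_rfl (mul_le_mul' le_rfl (sum_Ee_le hq hW hk _))
    _ = (kq q * Ks W * fs (fun p : LL => ii (BI q p ∧ wd p.1 + wd p.2 ≤ 16 * q) *
          (xl p.1 * xl p.2 * Lq q 0 (p.1 ++ p.2))) +
          fs (fun p : LL => ii (BI q p ∧ wd p.1 + wd p.2 ≤ 16 * q) *
          (xl p.1 * xl p.2 * Lq q q (p.1 ++ p.2)))) * Ec (8 * q) W := by
        rw [mul_fs, ← fs_add, fs_mul]
        apply fs_congr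
        intro X
        ring
    _ ≤ _ := by
        gcongr
        · exact sum_Lq_B q 0
        · exact sum_Lq_B q q

lemma sum_yt_le {q k W : ℕ} (hk : k ≤ 8 * q) :
    ∑ l ∈ Finset.range k, yt q l W ≤ Lam q * Ec (8 * q) W := by
  have e : Lam q * Ec (8 * q) W = fs (fun p : LL =>
      ii ((Irr p.1 ∧ (q ≤ wd p.1 ∧ wd p.1 ≤ 64 * q)) ∧ (IsB p.2 ∧ wd p.2 ≤ 8 * q)) *
        (xl p.1 * xl p.2 * Nc (8 * q) W p.2)) := by
    unfold Lam Ec
    rw [fs_mul_fs]
    apply fs_congr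
    intro p
    rw [ii_and (_ ∧ _) (_ ∧ _)]; ring
  rw [e]
  unfold yt
  rw [← fs_sum]
  apply fs_mono
  intro p
  by_cases h : BI q p ∧ wd p.1 + wd p.2 < 16 * q
  · obtain ⟨⟨⟨h1, h2⟩, ⟨h3, h4⟩⟩, h5⟩ := h
    rw [ii_of (p := (Irr p.1 ∧ (q ≤ wd p.1 ∧ wd p.1 ≤ 64 * q)) ∧ (IsB p.2 ∧ wd p.2 ≤ 8 * q))
      ⟨⟨h1, h2, by omega⟩, h3, by omega⟩, one_mul, ← Finset.sum_mul]
    calc _ ≤ 1 * (xl p.1 * xl p.2 * Nc (8 * q) W p.2) := by
          refine mul_le_mul' ?_ le_rfl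
          by_cases h6 : ∃ l, l < k ∧ wd p.1 + wd p.2 = 8 * q + l
          · obtain ⟨l, hl, h7⟩ := h6
            rw [Finset.sum_eq_single_of_mem l (Finset.mem_range.mpr hl)]
            · exact ii_le_one _
            · intro m _ hm
              rw [ii_not]
              rintro ⟨-, h8⟩
              omega
          · refine le_trans (le_of_eq ?_) zero_le
            apply Finset.sum_eq_zero
            intro l hl
            rw [Finset.mem_range] at hl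
            rw [ii_not]
            rintro ⟨-, h8⟩
            exact h6 ⟨l, hl, h8⟩
      _ = _ := one_mul _
  · refine le_trans (le_of_eq ?_) zero_le
    apply Finset.sum_eq_zero
    intro l hl
    rw [Finset.mem_range] at hl
    rw [ii_not, zero_mul]
    rintro ⟨h1, h2⟩
    exact h ⟨h1, by omega⟩

lemma LU_le (q : ℕ) : LU q ≤ Lam q * Us (64 * q) := by
  have e : Lam q * Us (64 * q) = fs (fun p : LL =>
      ii ((Irr p.1 ∧ (q ≤ wd p.1 ∧ wd p.1 ≤ 64 * q)) ∧ (IsB p.2 ∧ wd p.2 ≤ 64 * q)) *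
        (xl p.1 * xl p.2)) := by
    unfold Lam Us
    rw [fs_mul_fs]
    apply fs_congr
    intro p
    rw [ii_and (_ ∧ _) (_ ∧ _)]; ring
  rw [e]
  unfold LU
  apply fs_mono
  intro p
  gcongr
  exact ii_mono fun h => ⟨⟨h.1.1.1, h.1.1.2, by omega⟩, h.1.2.1, by omega⟩

end Pool.Agent.TH508.LT
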