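import Pool.Agent.TH508.LT.MatP
import Pool.Agent.W387.S.Lnk
import Pool.Agent.H982R3.Walk

/-!
Sums over extendable pairs of bridges of comparable widths whose outer irreducible pieces are wide.
-/

set_option linter.unusedSectionVars false

namespace Pool.Agent.TH508.LT

open H982 hiding PU
open scoped ENNReal
open PowerSeries
open H982F (BrSet mem_BrSet FBr SawSet mem_SawSet)
open H982R (Wk rf tm rf_le rf_gt rf_rf)
open H500S (tp tp_le tp_max tp_last tp_eq up_rf_ge)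
open Pool.Agent.W387.S

variable [L : H982.Lat]

/-- no renewal line at a distance less than `ρ` from the start -/
def NF (ρ : ℕ) (w : List St) : Prop := ∀ c X1 X2, Spl c w X1 X2 → c = 0 ∨ ρ ≤ c

/-- no renewal line at a distance less than `ρ` from the end -/
def NL (ρ : ℕ) (w : List St) : Prop := ∀ c X1 X2, Spl c w X1 X2 → X2 = [] ∨ ρ ≤ wd X2

lemma NF_zero (w : List St) : NF 0 w := fun _ _ _ _ => Or.inr (Nat.zero_le _)
lemma NL_zero (w : List St) : NL 0 w := fun _ _ _ _ => Or.inr (Nat.zero_le _)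

/-- cut times give renewal lines -/
lemma spl_of_cut {X : List St} (hX : IsB X) {k : ℕ}
    (h1 : ∀ i, i ≤ k → dx (X.take i) ≤ dx (X.take k))
    (h2 : ∀ i, k < i → i ≤ X.length → dx (X.take k) < dx (X.take i)) :
    Spl (wd (X.take k)) X (X.take k) (X.drop k) := by
  have hS := hX.br.saw
  have hP : IsB (X.take k) := by
    refine isB_of (hS.subw (List.take_prefix k X).isInfix)
      (hX.br.hp.prew (List.take_prefix k X)) ?_
    intro u hu
    have e : u = X.take u.length :=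
      List.prefix_iff_eq_take.mp (hu.trans (List.take_prefix k X))
    have hl : u.length ≤ k := hu.length_le.trans (List.length_take_le k X)
    rw [e]
    exact h1 _ hl
  have hQ : IsB (X.drop k) := by
    have key : ∀ v, v <+: X.drop k → X.take k ++ v = X.take (k + v.length) ∨ v = [] := by
      intro v hv
      rcases Nat.lt_or_ge k X.length with hk | hk
      · left
        have h3 : X.take k ++ v <+: X := by
          conv_rhs => rw [← List.take_append_drop k X]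
          exact (List.prefix_append_right_inj _).mpr hv
        have h4 := List.prefix_iff_eq_take.mp h3
        have h5 : (X.take k ++ v).length = k + v.length := by
          rw [List.length_append, List.length_take]; omega
        rw [h5] at h4
        exact h4
      · right
        rw [List.drop_eq_nil_of_le hk] at hv
        simpa using hv
    refine isB_of (hS.subw (List.drop_suffix k X).isInfix) ?_ ?_
    · intro v hv hv0
      rcases key v hv with h3 | h3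
      · have h4 : k + v.length ≤ X.length := by
          have := hv.length_le
          rw [List.length_drop] at this
          have h5 : 0 < v.length := List.length_pos_iff.mpr hv0
          omega
        have h5 := h2 (k + v.length) (by
          have : 0 < v.length := List.length_pos_iff.mpr hv0
          omega) h4
        rw [← h3, dx_append] at h5
        omega
      · exact absurd h3 hv0
    · intro v hv
      rcases key v hv with h3 | h3
      · have h4 := hX.br.le (List.take_prefix (k + v.length) X)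
        rw [← h3, dx_append] at h4
        have h5 := hX.wd_eq_dx
        have h6 : dx X = dx (X.take k) + dx (X.drop k) := by
          conv_lhs => rw [← List.take_append_drop k X, dx_append]
        omega
      · subst h3
        have h4 := hX.br.le (List.take_prefix k X)
        have h5 := hX.wd_eq_dx
        have h6 : dx X = dx (X.take k) + dx (X.drop k) := by
          conv_lhs => rw [← List.take_append_drop k X, dx_append]
        simp only [dx_nil]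
        omega
  exact ⟨(List.take_append_drop k X).symm, hP.br, hQ⟩

lemma nfw_of_NF {ρ : ℕ} {X : List St} (hX : IsB X) (h : NF ρ X) (o : ℤ) (Z : List St) :
    NFw ρ X.length (pf o (X ++ Z)) := by
  intro k hk h1 h2 h3 h4
  have hle : ∀ i, i ≤ X.length → (pf o (X ++ Z) i).1 = dx (X.take i) := by
    intro i hi
    unfold pf
    rw [take_append_le hi]
  rw [hle k hk.le] at h1 h2 h3 h4
  have hs := spl_of_cut hX (k := k) (fun i hi => by
    have := h3 i hi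
    rwa [hle i (by omega)] at this) (fun i hi hi2 => by
    have := h4 i hi hi2
    rwa [hle i hi2] at this)
  have hw := hs.2.1.dx
  rcases h _ _ _ hs with h5 | h5 <;> omega

lemma nlv_of_NL {ρ : ℕ} {X Y : List St} (hY : IsB Y) (h : NL ρ Y) (o : ℤ) :
    NLv ρ X.length (X ++ Y).length (pf o (X ++ sg Y)) := by
  intro k hk hkN h2 h3 h4
  have hlen : (X ++ Y).length = X.length + Y.length := List.length_append
  have hgt : ∀ i, X.length ≤ i → (pf o (X ++ sg Y) i).1 = dx X - dx (Y.take (i - X.length)) := by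
    intro i hi
    unfold pf
    rw [take_append_gt hi]
    have h8 : (sg Y).take (i - X.length) = sg (Y.take (i - X.length)) := by
      unfold sg; rw [List.map_take]
    rw [h8, dx_append, dx_sg]
    ring
  obtain ⟨j, rfl⟩ := Nat.exists_eq_add_of_le hk.le
  have hj : j < Y.length := by omega
  have hN : (pf o (X ++ sg Y) (X ++ Y).length).1 = dx X - dx Y := by
    rw [hgt _ (by omega), hlen, Nat.add_sub_cancel_left, List.take_length]
  have hk' : (pf o (X ++ sg Y) (X.length + j)).1 = dx X - dx (Y.take j) := by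
    rw [hgt _ (by omega), Nat.add_sub_cancel_left]
  rw [hk'] at h2 h3 h4
  rw [hN] at h2
  have hs := spl_of_cut hY (k := j) (fun i hi => by
    have := h3 (X.length + i) (by omega) (by omega)
    rw [hgt _ (by omega), Nat.add_sub_cancel_left] at this
    omega) (fun i hi hi2 => by
    have := h4 (X.length + i) (by omega) (by omega)
    rw [hgt _ (by omega), Nat.add_sub_cancel_left] at this
    omega)
  have hw := hs.2.2.wd_eq_dx
  have h6 : dx Y = dx (Y.take j) + dx (Y.drop j) := by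
    conv_lhs => rw [← List.take_append_drop j Y, dx_append]
  rcases h _ _ _ hs with h5 | h5
  · have := congrArg List.length h5
    rw [List.length_drop] at this
    simp at this
    omega
  · omega

lemma NF_of_nfw {ρ q : ℕ} {u : List St} (hq : ρ ≤ q) (hu : q ≤ wd u) (o : ℤ)
    (h : NFw ρ u.length (pf o u)) : NF ρ u := by
  rintro c X1 X2 ⟨rfl, h1, h2⟩
  by_contra hcon
  push Not at hcon
  have hw := h1.wd
  have hX2 : X2 ≠ [] := by
    rintro rfl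
    rw [List.append_nil] at hu
    omega
  obtain ⟨c1, c2, c3⟩ := cut_pf o h1.isB h2 hX2
  have e : (pf o (X1 ++ X2) X1.length).1 = (wd X1 : ℤ) := by
    unfold pf
    rw [List.take_left' rfl, h1.isB.wd_eq_dx]
  refine h X1.length c1 ?_ ?_ ?_ ?_
  · rw [e]; omega
  · rw [e]; omega
  · intro i hi
    rw [e]; exact c2 i hi
  · intro i hi _
    rw [e]; exact c3 i hi

lemma NL_of_nlw {ρ : ℕ} {u : List St} (o : ℤ)
    (h : NLw ρ u.length (pf o u)) : NL ρ u := by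
  rintro c X1 X2 ⟨rfl, h1, h2⟩
  by_contra hcon
  push Not at hcon
  obtain ⟨hX2, hlt⟩ := hcon
  obtain ⟨c1, c2, c3⟩ := cut_pf o h1.isB h2 hX2
  have e : (pf o (X1 ++ X2) X1.length).1 = (wd X1 : ℤ) := by
    unfold pf
    rw [List.take_left' rfl, h1.isB.wd_eq_dx]
  have e2 : (pf o (X1 ++ X2) (X1 ++ X2).length).1 = (wd X1 : ℤ) + wd X2 := by
    rw [pf_ge o le_rfl, h1.isB.wd_eq_dx, h2.wd_eq_dx, dx_append]
  refine h X1.length c1 ?_ ?_ ?_
  · rw [e, e2]; omega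
  · intro i hi
    rw [e]; exact c2 i hi
  · intro i hi _
    rw [e]; exact c3 i hi

/-- extendable pairs of comparable widths -/
def PQ (q ρ ρ' : ℕ) (p : LL) : Prop :=
  (IsB p.1 ∧ IsB p.2) ∧ ((q ≤ wd p.1 ∧ wd p.1 ≤ 16 * q) ∧ (q ≤ wd p.2 ∧ wd p.2 ≤ 16 * q)) ∧
    PP p.1 p.2 ∧ NF ρ p.1 ∧ NL ρ' p.2

/-- bridges with wide outer pieces -/
def WQ (q ρ ρ' : ℕ) (w : List St) : Prop :=
  IsB w ∧ (q ≤ wd w ∧ wd w ≤ 64 * q) ∧ NF ρ w ∧ NL ρ' w

noncomputable def Ws (q ρ ρ' : ℕ) : PS := fs (fun w => ii (WQ q ρ ρ' w) * xl w)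

noncomputable def Ps (q ρ ρ' : ℕ) : PS :=
  fs (fun p : LL => ii (PQ q ρ ρ' p) * (xl p.1 * xl p.2))

lemma coeff_Ws (q ρ ρ' n : ℕ) : coeff n (Ws q ρ ρ') =
    ∑' u : List St, ind (WQ q ρ ρ' u ∧ u.length = n) * 1 := by
  unfold Ws
  rw [coeff_fs]
  congr 1; ext u
  rw [coeff_ii_mul, coeff_xl, ind_and (WQ q ρ ρ' u) (_ = _), mul_one]

lemma coeff_Ps (q ρ ρ' n : ℕ) : coeff n (Ps q ρ ρ') =
    ∑' p : LL, ind (PQ q ρ ρ' p ∧ (p.1 ++ p.2).length = n) * 1 := by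
  unfold Ps
  rw [coeff_fs]
  congr 1; ext p
  rw [coeff_ii_mul, ← xl_append, coeff_xl, ind_and (PQ q ρ ρ' p) (_ = _), mul_one]

lemma card_WP_le (N q ρ ρ' : ℕ) (hρ : ρ ≤ q) :
    ((WP N q (64 * q) ρ ρ').card : ℝ≥0∞) ≤ 2 * coeff N (Ws q ρ ρ') := by
  classical
  obtain ⟨S, hS⟩ : ∃ S, S = WP N q (64 * q) ρ ρ' := ⟨_, rfl⟩
  rw [← hS]
  have h1 : (S.card : ℝ≥0∞) = ∑' w : ℕ → ℤ × ℤ, ind (w ∈ S) * 1 := by
    rw [tsum_eq_sum (s := S)]
    · rw [Finset.sum_congr rfl (g := fun _ => (1 : ℝ≥0∞))]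
      · simp
      · intro w hw
        rw [ind_of hw, mul_one]
    · intro w hw
      rw [ind_not hw, zero_mul]
  have h2 : 2 * coeff N (Ws q ρ ρ') = ∑' p : Bool × List St,
      ind (WQ q ρ ρ' p.2 ∧ p.2.length = N) * 1 := by
    rw [coeff_Ws, ENNReal.tsum_prod', tsum_bool]
    simp only
    rw [two_mul]
  rw [h1, h2]
  refine tsum_cover _ _ _ _ (fun q : Bool × List St => pf (if q.1 then 1 else -1) q.2) ?_
  intro w hw
  rw [hS, mem_WP] at hw
  obtain ⟨⟨hw1, hw2, hw3⟩, hw4, hw5⟩ := hw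
  obtain ⟨o, u, ho, hok, hu, rfl⟩ := exists_word hw1.saw
  subst hu
  obtain ⟨h2, h3⟩ := isBr_of_fbr hok hw1
  have h4 : q ≤ wd u := by omega
  have h5 : wd u ≤ 64 * q := by omega
  refine ⟨(decide (o = 1), u), ⟨⟨h2.isB, ⟨h4, h5⟩, NF_of_nfw hρ h4 o hw4,
    NL_of_nlw o hw5⟩, rfl⟩, ?_, le_rfl⟩
  simp only
  congr 1
  rcases ho with rfl | rfl <;> simp

open scoped Classical in
noncomputable def VQ (N q ρ ρ' : ℕ) : Finset Wk :=
  (Finset.range 5 ×ˢ Finset.range 5).biUnion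
    (fun g => VP N (q * 2 ^ g.1) (q * 2 ^ (g.1 + 1)) (q * 2 ^ g.2) (q * 2 ^ (g.2 + 1)) ρ ρ')

theorem card_VQ_le (N q ρ ρ' : ℕ) (hq : 1 ≤ q) (hρ : ρ ≤ q) (hρ' : ρ' ≤ q) :
    (VQ N q ρ ρ').card ≤ 25 * (WP N q (64 * q) ρ ρ').card := by
  classical
  unfold VQ
  refine Finset.card_biUnion_le.trans ?_
  have hq' : (1 : ℤ) ≤ q := by exact_mod_cast hq
  have h1 : ∀ g ∈ Finset.range 5 ×ˢ Finset.range 5,
      (VP N (q * 2 ^ g.1) (q * 2 ^ (g.1 + 1)) (q * 2 ^ g.2) (q * 2 ^ (g.2 + 1)) ρ ρ').card ≤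
      (WP N q (64 * q) ρ ρ').card := by
    rintro ⟨a, b⟩ hab
    rw [Finset.mem_product, Finset.mem_range, Finset.mem_range] at hab
    simp only at hab ⊢
    have pa : (1 : ℤ) ≤ 2 ^ a := one_le_pow₀ (by norm_num)
    have pb : (1 : ℤ) ≤ 2 ^ b := one_le_pow₀ (by norm_num)
    have pa' : (2 : ℤ) ^ a ≤ 16 := by
      calc (2 : ℤ) ^ a ≤ 2 ^ 4 := pow_le_pow_right₀ (by norm_num) (by omega)
        _ = 16 := by norm_num
    have pb' : (2 : ℤ) ^ b ≤ 16 := by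
      calc (2 : ℤ) ^ b ≤ 2 ^ 4 := pow_le_pow_right₀ (by norm_num) (by omega)
        _ = 16 := by norm_num
    have p1 : (q : ℤ) * 2 ^ (a + 1) = 2 * (q * 2 ^ a) := by rw [pow_succ]; ring
    have p2 : (q : ℤ) * 2 ^ (b + 1) = 2 * (q * 2 ^ b) := by rw [pow_succ]; ring
    have qa : (q : ℤ) ≤ q * 2 ^ a := by nlinarith
    have qb : (q : ℤ) ≤ q * 2 ^ b := by nlinarith
    have hρ1 : (ρ : ℤ) ≤ q := by exact_mod_cast hρ
    have hρ2 : (ρ' : ℤ) ≤ q := by exact_mod_cast hρ'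
    refine (card_VP_le (D0 := q) p1.le p2.le (by omega) (Or.inl qa) (by omega)
      (by omega)).trans ?_
    apply Finset.card_le_card
    intro w hw
    rw [mem_WP] at hw ⊢
    refine ⟨⟨hw.1.1, hw.1.2.1, lt_of_lt_of_le hw.1.2.2 ?_⟩, hw.2⟩
    rw [p1, p2]
    nlinarith
  refine (Finset.sum_le_sum h1).trans ?_
  rw [Finset.sum_const, Finset.card_product, Finset.card_range, smul_eq_mul]

lemma PQ_orient {o : ℤ} (ho : o = 1 ∨ o = -1) (N q ρ ρ' : ℕ) (hq : 1 ≤ q) (hρ : ρ ≤ q)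
    (hρ' : ρ' ≤ q) :
    ∑' p : LL, ind ((PQ q ρ ρ' p ∧ PU o (16 * q) p) ∧ (p.1 ++ p.2).length = N) * 1 ≤
    ((25 * (WP N q (64 * q) ρ ρ').card : ℕ) : ℝ≥0∞) := by
  classical
  have h1 : ∑' w : Wk, ind (w ∈ VQ N q ρ ρ') * 1 = ((VQ N q ρ ρ').card : ℝ≥0∞) := by
    rw [tsum_eq_sum (s := VQ N q ρ ρ')]
    · rw [Finset.sum_congr rfl (g := fun _ => (1 : ℝ≥0∞))]
      · simp
      · intro w hw
        rw [ind_of hw, mul_one]
    · intro w hw
      rw [ind_not hw, zero_mul]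
  have h2 : ((VQ N q ρ ρ').card : ℝ≥0∞) ≤
      ((25 * (WP N q (64 * q) ρ ρ').card : ℕ) : ℝ≥0∞) := by
    exact_mod_cast card_VQ_le N q ρ ρ' hq hρ hρ'
  refine le_trans ?_ h2
  rw [← h1]
  refine tsum_inj _ _ _ _ (fun p : LL => pf o (p.1 ++ sg p.2)) ?_ ?_ ?_
  · rintro p p' ⟨⟨-, hp⟩, hpN⟩ ⟨⟨-, hq⟩, hqN⟩ heq
    obtain ⟨a1, a2, -⟩ := ov_of ho hp
    obtain ⟨b1, b2, -⟩ := ov_of ho hq
    rw [hpN] at a1
    rw [hqN] at b1
    have h3 : p.1.length = p'.1.length := by rw [← a1, ← b1, heq]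
    have h4 : pf o (p.1 ++ p.2) = pf o (p'.1 ++ p'.2) := by rw [← a2, ← b2, heq, h3]
    have ok : ∀ r : LL, PU o (16 * q) r → Ok (r.1 ++ r.2) := fun r hr =>
      ok_append.mpr ⟨hr.1.1.1.br.saw.2, hr.1.2.1.1.br.saw.2⟩
    have h5 : p.1 ++ p.2 = p'.1 ++ p'.2 := pf_inj ho (ok p hp) (ok p' hq) (hpN.trans hqN.symm) h4
    obtain ⟨h6, h7⟩ := List.append_inj h5 h3
    exact Prod.ext h6 h7
  · rintro p ⟨⟨hPQ, hp⟩, hpN⟩
    obtain ⟨⟨b1, b2⟩, ⟨⟨w1, w2⟩, ⟨w3, w4⟩⟩, -, nf, nl⟩ := hPQ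
    obtain ⟨a1, -, a3⟩ := ov_of ho hp
    have hnl := nlv_of_NL (X := p.1) b2 nl o
    have hnf := nfw_of_NF b1 nf o (sg p.2)
    rw [← a1] at hnf
    rw [hpN] at a1 a3 hnf hnl
    rw [← a1] at hnl
    unfold VQ
    rw [Finset.mem_biUnion]
    have key : ∀ x : ℕ, q ≤ x → x ≤ 16 * q → ∃ a, a < 5 ∧ q * 2 ^ a ≤ x ∧ x < q * 2 ^ (a + 1) := by
      intro x h1 h2
      by_cases c1 : x < 2 * q
      · exact ⟨0, by norm_num, by omega, by omega⟩
      by_cases c2 : x < 4 * q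
      · exact ⟨1, by norm_num, by omega, by omega⟩
      by_cases c3 : x < 8 * q
      · exact ⟨2, by norm_num, by omega, by omega⟩
      by_cases c4 : x < 16 * q
      · exact ⟨3, by norm_num, by omega, by omega⟩
      · exact ⟨4, by norm_num, by omega, by omega⟩
    obtain ⟨a, ha, ha1, ha2⟩ := key (wd p.1) w1 w2
    obtain ⟨b, hb, hb1, hb2⟩ := key (wd p.2) w3 w4
    refine ⟨(a, b), ?_, ?_⟩
    · rw [Finset.mem_product, Finset.mem_range, Finset.mem_range]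
      exact ⟨ha, hb⟩
    · rw [mem_VP]
      refine ⟨a3 _ _ _ _ ?_ ?_ ?_ ?_, hnf, hnl⟩
      · exact_mod_cast ha1
      · exact_mod_cast ha2
      · exact_mod_cast hb1
      · exact_mod_cast hb2
  · intro p _
    exact le_rfl

/-- **the sum over extendable pairs of comparable widths**, without logarithm -/
theorem Ps_le (q ρ ρ' : ℕ) (hq : 1 ≤ q) (hρ : ρ ≤ q) (hρ' : ρ' ≤ q) :
    Ps q ρ ρ' ≤ cst 100 * Ws q ρ ρ' := by
  intro N
  rw [coeff_cst_mul, coeff_Ps]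
  have h3 := PQ_orient (o := 1) (Or.inl rfl) N q ρ ρ' hq hρ hρ'
  have h3' := PQ_orient (o := -1) (Or.inr rfl) N q ρ ρ' hq hρ hρ'
  have h4 := card_WP_le N q ρ ρ' hρ
  calc ∑' p : LL, ind (PQ q ρ ρ' p ∧ (p.1 ++ p.2).length = N) * 1
      ≤ ∑' p : LL, (ind ((PQ q ρ ρ' p ∧ PU 1 (16 * q) p) ∧ (p.1 ++ p.2).length = N) * 1 +
        ind ((PQ q ρ ρ' p ∧ PU (-1) (16 * q) p) ∧ (p.1 ++ p.2).length = N) * 1) := by
        apply ENNReal.tsum_le_tsum
        intro p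
        by_cases hp : PQ q ρ ρ' p ∧ (p.1 ++ p.2).length = N
        · rw [ind_of hp, one_mul]
          obtain ⟨hPQ, a6⟩ := hp
          have hPQ' := hPQ
          obtain ⟨⟨b1, b2⟩, ⟨⟨w1, w2⟩, ⟨w3, w4⟩⟩, hPP, nf, nl⟩ := hPQ
          have hX : p.1 ≠ [] := IsB.ne_nil_of_pos (by omega)
          have hY : p.2 ≠ [] := IsB.ne_nil_of_pos (by omega)
          obtain ⟨hEU, hED⟩ := hPP hX hY
          have hN : NCg p.1 p.2 := by
            obtain ⟨u, -, h, -⟩ := hEU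
            exact h.suf
          obtain ⟨o, ho, h4⟩ := up_cases b1 b2 hX hY hN
          rcases ho with rfl | rfl
          · rw [ind_of (p := (PQ q ρ ρ' p ∧ PU 1 (16 * q) p) ∧ (p.1 ++ p.2).length = N)
              ⟨⟨hPQ', ⟨⟨b1, w2⟩, ⟨b2, w4⟩, hEU, hED⟩, hX, hY, h4⟩, a6⟩, one_mul]
            exact le_self_add
          · rw [ind_of (p := (PQ q ρ ρ' p ∧ PU (-1) (16 * q) p) ∧ (p.1 ++ p.2).length = N)
              ⟨⟨hPQ', ⟨⟨b1, w2⟩, ⟨b2, w4⟩, hEU, hED⟩, hX, hY, h4⟩, a6⟩, one_mul]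
            exact le_add_self
        · rw [ind_not hp, zero_mul]; exact zero_le
    _ = ∑' p : LL, ind ((PQ q ρ ρ' p ∧ PU 1 (16 * q) p) ∧ (p.1 ++ p.2).length = N) * 1 +
        ∑' p : LL, ind ((PQ q ρ ρ' p ∧ PU (-1) (16 * q) p) ∧ (p.1 ++ p.2).length = N) * 1 := by
        rw [ENNReal.tsum_add]
    _ ≤ ((25 * (WP N q (64 * q) ρ ρ').card : ℕ) : ℝ≥0∞) +
        ((25 * (WP N q (64 * q) ρ ρ').card : ℕ) : ℝ≥0∞) := add_le_add h3 h3'
    _ = 50 * ((WP N q (64 * q) ρ ρ').card : ℝ≥0∞) := by push_cast; ring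
    _ ≤ 50 * (2 * coeff N (Ws q ρ ρ')) := by gcongr
    _ = _ := by ring

/-- wide irreducible bridges -/
noncomputable def Lam (q : ℕ) : PS :=
  fs (fun w => ii (Irr w ∧ (q ≤ wd w ∧ wd w ≤ 64 * q)) * xl w)

lemma Ws_le_Us (q ρ ρ' : ℕ) : Ws q ρ ρ' ≤ Us (64 * q) := by
  apply fs_mono
  intro w
  gcongr
  exact ii_mono fun h => ⟨h.1, h.2.1.2⟩

lemma first_piece {w : List St} (h : IsB w) (h0 : w ≠ []) :
    ∃ ι Y, w = ι ++ Y ∧ Irr ι ∧ IsB Y := by
  have hp := h.wd_pos h0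
  obtain ⟨X, ι, Y, h1, h2, h3, h4, h5, h6⟩ := exists_triple h.br (m := 0) hp
  have hX : X = [] := by
    apply IsBr.eq_nil
    have : wd X = 0 := by omega
    rw [← this]
    exact h2.br
  subst hX
  exact ⟨ι, Y, by simpa using h1, h3, h4⟩

lemma last_piece {w : List St} (h : IsB w) (h0 : w ≠ []) :
    ∃ Y ι, w = Y ++ ι ∧ IsB Y ∧ Irr ι := by
  have hp := h.wd_pos h0
  obtain ⟨X, ι, Y, h1, h2, h3, h4, h5, h6⟩ := exists_triple h.br (m := wd w - 1) (by omega)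
  have hw : wd w = wd X + (wd ι + wd Y) := by
    rw [h1, wd_append h2 (h3.1.append h4), wd_append h3.1 h4]
  have hY : Y = [] := by
    apply IsBr.eq_nil
    have : wd Y = 0 := by omega
    rw [← this]
    exact h4.br
  subst hY
  exact ⟨X, ι, by simpa using h1, h2, h3⟩

lemma Irr.pos {ι : List St} (h : Irr ι) : 0 < wd ι := h.1.wd_pos h.2.1

lemma Ws_first (q ρ' : ℕ) (hq : 1 ≤ q) : Ws q q ρ' ≤ Lam q * Us (64 * q) := by
  have e : Lam q * Us (64 * q) = fs (fun p : LL =>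
      ii ((Irr p.1 ∧ (q ≤ wd p.1 ∧ wd p.1 ≤ 64 * q)) ∧ (IsB p.2 ∧ wd p.2 ≤ 64 * q)) *
        (xl p.1 * xl p.2)) := by
    unfold Lam Us
    rw [fs_mul_fs]
    apply fs_congr
    intro p
    rw [ii_and (_ ∧ _) (_ ∧ _)]; ring
  rw [e]
  unfold Ws
  refine fs_cover _ _ _ _ (fun p : LL => p.1 ++ p.2) ?_
  rintro w ⟨hB, ⟨h1, h2⟩, hF, hL⟩
  obtain ⟨ι, Y, rfl, hι, hY⟩ := first_piece hB (IsB.ne_nil_of_pos (by omega))
  have hw := wd_append hι.1 hY
  have h3 : wd ι = 0 ∨ q ≤ wd ι := hF (wd ι) ι Y ⟨rfl, hι.1.br, hY⟩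
  have h4 := Irr.pos hι
  have k1 : q ≤ wd ι := by omega
  have k2 : wd ι ≤ 64 * q := by omega
  have k3 : wd Y ≤ 64 * q := by omega
  exact ⟨(ι, Y), ⟨⟨hι, k1, k2⟩, hY, k3⟩, rfl, by rw [xl_append]⟩

lemma Ws_last (q ρ : ℕ) (hq : 1 ≤ q) : Ws q ρ q ≤ Lam q * Us (64 * q) := by
  have e : Lam q * Us (64 * q) = fs (fun p : LL =>
      ii ((Irr p.1 ∧ (q ≤ wd p.1 ∧ wd p.1 ≤ 64 * q)) ∧ (IsB p.2 ∧ wd p.2 ≤ 64 * q)) *
        (xl p.1 * xl p.2)) := by
    unfold Lam Us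
    rw [fs_mul_fs]
    apply fs_congr
    intro p
    rw [ii_and (_ ∧ _) (_ ∧ _)]; ring
  rw [e]
  unfold Ws
  refine fs_cover _ _ _ _ (fun p : LL => p.2 ++ p.1) ?_
  rintro w ⟨hB, ⟨h1, h2⟩, hF, hL⟩
  obtain ⟨Y, ι, rfl, hY, hι⟩ := last_piece hB (IsB.ne_nil_of_pos (by omega))
  have hw := wd_append hY hι.1
  have h3 : ι = [] ∨ q ≤ wd ι := hL (wd Y) Y ι ⟨rfl, hY.br, hι.1⟩
  have h4 := hι.2.1
  have h5 : q ≤ wd ι := by tauto
  have k2 : wd ι ≤ 64 * q := by omega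
  have k3 : wd Y ≤ 64 * q := by omega
  exact ⟨(ι, Y), ⟨⟨hι, h5, k2⟩, hY, k3⟩, rfl, by
    rw [xl_append]; simp only; rw [mul_comm]⟩

lemma Ws_both (q : ℕ) (hq : 1 ≤ q) :
    Ws q q q ≤ Lam q + Lam q * (Us (64 * q) * Lam q) := by
  have e : Lam q * (Us (64 * q) * Lam q) = fs (fun p : L3 =>
      ii ((Irr p.1 ∧ (q ≤ wd p.1 ∧ wd p.1 ≤ 64 * q)) ∧ (IsB p.2.1 ∧ wd p.2.1 ≤ 64 * q) ∧
        (Irr p.2.2 ∧ (q ≤ wd p.2.2 ∧ wd p.2.2 ≤ 64 * q))) *
        (xl p.1 * (xl p.2.1 * xl p.2.2))) := by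
    unfold Lam Us
    rw [fs_mul_fs, fs_mul_fs]
    apply fs_congr
    intro p
    rw [ii_and (_ ∧ _) (_ ∧ _), ii_and (_ ∧ _) (_ ∧ _)]; ring
  have h1 : Ws q q q ≤ fs (fun w => ii (WQ q q q w ∧ Irr w) * xl w) +
      fs (fun w => ii (WQ q q q w ∧ ¬ Irr w) * xl w) := by
    rw [← fs_add]
    unfold Ws
    apply fs_mono
    intro w
    by_cases hw : WQ q q q w
    · by_cases hI : Irr w
      · rw [ii_of hw, ii_of (p := WQ q q q w ∧ Irr w) ⟨hw, hI⟩]
        exact le_self_add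
      · rw [ii_of hw, ii_of (p := WQ q q q w ∧ ¬ Irr w) ⟨hw, hI⟩]
        exact le_add_self
    · rw [ii_not hw, zero_mul]; exact zero_le
  refine h1.trans (add_le_add ?_ ?_)
  · apply fs_mono
    intro w
    gcongr
    exact ii_mono fun h => ⟨h.2, h.1.2.1⟩
  · rw [e]
    refine fs_cover _ _ _ _ (fun p : L3 => p.1 ++ (p.2.1 ++ p.2.2)) ?_
    rintro w ⟨⟨hB, ⟨h1, h2⟩, hF, hL⟩, hnI⟩
    obtain ⟨ι, Y, rfl, hι, hY⟩ := first_piece hB (IsB.ne_nil_of_pos (by omega))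
    have hw := wd_append hι.1 hY
    have h3 : wd ι = 0 ∨ q ≤ wd ι := hF (wd ι) ι Y ⟨rfl, hι.1.br, hY⟩
    have h4 := Irr.pos hι
    have hY0 : Y ≠ [] := by
      rintro rfl
      rw [List.append_nil] at hnI
      exact hnI hι
    obtain ⟨Z, κ, rfl, hZ, hκ⟩ := last_piece hY hY0
    have hw2 := wd_append hZ hκ.1
    have h5 : κ = [] ∨ q ≤ wd κ := by
      refine hL (wd (ι ++ Z)) (ι ++ Z) κ ⟨by simp, (hι.1.append hZ).br, hκ.1⟩
    have h6 := hκ.2.1
    have h7 : q ≤ wd κ := by tauto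
    have k1 : q ≤ wd ι := by omega
    have k2 : wd ι ≤ 64 * q := by omega
    have k3 : wd Z ≤ 64 * q := by omega
    have k4 : wd κ ≤ 64 * q := by omega
    exact ⟨(ι, Z, κ), ⟨⟨hι, k1, k2⟩, ⟨hZ, k3⟩, ⟨hκ, h7, k4⟩⟩, rfl, by
      rw [xl_append, xl_append]⟩

lemma Lam_le (q : ℕ) : cst (q : ℝ≥0∞) * Lam q ≤ Ks (64 * q) := by
  unfold Lam Ks
  rw [mul_fs]
  apply fs_mono
  intro w
  by_cases hw : Irr w ∧ (q ≤ wd w ∧ wd w ≤ 64 * q)
  · rw [ii_of hw, ii_of (p := Irr w ∧ wd w ≤ 64 * q) ⟨hw.1, hw.2.2⟩, one_mul, one_mul]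
    gcongr
    exact cst_le (by exact_mod_cast hw.2.1)
  · rw [ii_not hw, zero_mul, mul_zero]; exact zero_le

end Pool.Agent.TH508.LT
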