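import Pool.Agent.W387.S.Mat

/-!
The matching of extendable folded walks and bridges, refined by the positions of the first and of
the last cut level: folded walks `(Z, L)` such that the first irreducible piece of `Z` has width at
least `ρ` and the last irreducible piece of `L` has width at least `ρ'` are matched with bridges
with the same two properties.
-/

set_option linter.unusedSectionVars false

namespace Pool.Agent.TH508.LT

open H982F (Saw Adj Cut Up fl zf ct SawSet mem_SawSet FBr BrSet mem_BrSet)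
open H982R (Wk rf tm rf_le rf_gt rf_rf tm_le tm_mid tm_gt tm_self)
open H500S (tp tp_le tp_max tp_last tp_eq rf_comm rf_rf_left rf_rf_right up_rf_ge up_rf_le)
open Pool.Agent.W387.S

variable [L : H982.Lat]

/-- `w`, considered up to time `T`, has no cut at a level in `(0, ρ)` -/
def NFw (ρ : ℤ) (T : ℕ) (w : Wk) : Prop :=
  ∀ k, k < T → 0 < (w k).1 → (w k).1 < ρ → (∀ i, i ≤ k → (w i).1 ≤ (w k).1) →
    (∀ i, k < i → i ≤ T → (w k).1 < (w i).1) → False

/-- `w` has no cut at a distance less than `ρ` from its end -/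
def NLw (ρ : ℤ) (N : ℕ) (w : Wk) : Prop :=
  ∀ k, k < N → (w N).1 < (w k).1 + ρ → (∀ i, i ≤ k → (w i).1 ≤ (w k).1) →
    (∀ i, k < i → i ≤ N → (w k).1 < (w i).1) → False

/-- the part of `v` after time `S`, read downwards, has no cut at a distance less than `ρ` from
its end -/
def NLv (ρ : ℤ) (S N : ℕ) (v : Wk) : Prop :=
  ∀ k, S < k → k < N → (v k).1 < (v N).1 + ρ → (∀ i, S ≤ i → i ≤ k → (v k).1 ≤ (v i).1) →
    (∀ i, k < i → i ≤ N → (v i).1 < (v k).1) → False

open scoped Classical in
noncomputable def VP (N : ℕ) (α Lm β Lb ρ ρ' : ℤ) : Finset Wk :=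
  (SawSet N).filter (fun z => OV N α Lm β Lb z ∧ NFw ρ (tp N z) z ∧ NLv ρ' (tp N z) N z)

open scoped Classical in
noncomputable def WP (N : ℕ) (D0 D ρ ρ' : ℤ) : Finset Wk :=
  (SawSet N).filter (fun z => (FBr N z ∧ D0 ≤ (z N).1 ∧ (z N).1 < D) ∧ NFw ρ N z ∧ NLw ρ' N z)

theorem mem_VP {N : ℕ} {α Lm β Lb ρ ρ' : ℤ} {z : Wk} : z ∈ VP N α Lm β Lb ρ ρ' ↔
    OV N α Lm β Lb z ∧ NFw ρ (tp N z) z ∧ NLv ρ' (tp N z) N z := by
  classical
  unfold VP
  rw [Finset.mem_filter]
  exact ⟨fun h => h.2, fun h => ⟨mem_SawSet.2 h.1.saw, h⟩⟩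

theorem mem_WP {N : ℕ} {D0 D ρ ρ' : ℤ} {z : Wk} : z ∈ WP N D0 D ρ ρ' ↔
    (FBr N z ∧ D0 ≤ (z N).1 ∧ (z N).1 < D) ∧ NFw ρ N z ∧ NLw ρ' N z := by
  classical
  unfold WP
  rw [Finset.mem_filter]
  exact ⟨fun h => h.2, fun h => ⟨mem_SawSet.2 h.1.1.saw, h⟩⟩

theorem card_VP_le {N : ℕ} {α Lm β Lb D0 ρ ρ' : ℤ} (hα : Lm ≤ 2 * α) (hβ : Lb ≤ 2 * β)
    (hα0 : 0 < α) (h0 : D0 ≤ α ∨ D0 ≤ β) (hρ : ρ ≤ α) (hρ' : ρ' ≤ β) :
    (VP N α Lm β Lb ρ ρ').card ≤ (WP N D0 (Lm + Lb) ρ ρ').card := by
  classical
  obtain ⟨V, hV⟩ : ∃ V, V = VP N α Lm β Lb ρ ρ' := ⟨_, rfl⟩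
  obtain ⟨W, hW⟩ : ∃ W, W = WP N D0 (Lm + Lb) ρ ρ' := ⟨_, rfl⟩
  have memV : ∀ z, z ∈ V ↔ OV N α Lm β Lb z ∧ NFw ρ (tp N z) z ∧ NLv ρ' (tp N z) N z := by
    intro z; rw [hV]; exact mem_VP
  have memW : ∀ z, z ∈ W ↔
      (FBr N z ∧ D0 ≤ (z N).1 ∧ (z N).1 < Lm + Lb) ∧ NFw ρ N z ∧ NLw ρ' N z := by
    intro z; rw [hW]; exact mem_WP
  rw [← hV, ← hW]
  have hVW : ∀ z, z ∈ V → z ∈ W → False := by
    intro z h1 h2
    rw [memV] at h1
    rw [memW] at h2
    have h3 := tp_last (N := N) (w := z) N h1.1.lt le_rfl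
    have h4 := h2.1.1.le _ (tp_le N z)
    omega
  -- the unfolded walk of an element of `V`
  have hVun : ∀ z, z ∈ V → rf z (tp N z) ∈ W := by
    intro z hz
    obtain ⟨h, hnf, hnl⟩ := (memV z).1 hz
    rw [memW]
    obtain ⟨T, hT⟩ : ∃ T, T = tp N z := ⟨_, rfl⟩
    rw [← hT] at hnf hnl ⊢
    have hTN : T < N := by rw [hT]; exact h.lt
    have e : (rf z T N).1 = 2 * (z T).1 - (z N).1 := by rw [rf_gt hTN]
    have el : ∀ i, i ≤ T → rf z T i = z i := fun i hi => rf_le hi
    have eg : ∀ i, T < i → (rf z T i).1 = 2 * (z T).1 - (z i).1 := fun i hi => by rw [rf_gt hi]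
    have a1 := h.a1
    have a2 := h.a2
    have b1 := h.b1
    have b2 := h.b2
    have hbr := h.br
    rw [← hT] at a1 a2 b1 b2 hbr
    refine ⟨⟨hbr, ?_, ?_⟩, ?_, ?_⟩
    · rw [e]; rcases h0 with h0 | h0 <;> omega
    · rw [e]; omega
    · intro k hk c1 c2 c3 c4
      have hkT : k < T := by
        by_contra hcon
        have := c3 T (by omega)
        rw [el T le_rfl] at this
        omega
      rw [el k hkT.le] at c1 c2 c3 c4
      refine hnf k hkT c1 c2 (fun i hi => ?_) (fun i h1 h2 => ?_)
      · have := c3 i hi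
        rwa [el i (by omega)] at this
      · have := c4 i h1 (by omega)
        rwa [el i h2] at this
    · intro k hk c2 c3 c4
      have hkT : T < k := by
        by_contra hcon
        push Not at hcon
        have h1 : (rf z T k).1 ≤ (z T).1 := by
          rcases Nat.eq_or_lt_of_le hcon with h2 | h2
          · rw [h2, el T le_rfl]
          · have := c4 T h2 hTN.le
            rw [el T le_rfl] at this
            exact this.le
        rw [e] at c2
        omega
      rw [e, eg k hkT] at c2
      refine hnl k hkT hk (by omega) (fun i h1 h2 => ?_) (fun i h1 h2 => ?_)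
      · have := c3 i h2
        rw [eg k hkT] at this
        rcases Nat.eq_or_lt_of_le h1 with h3 | h3
        · rw [← h3, el T le_rfl] at this
          rw [← h3]
          omega
        · rw [eg i h3] at this
          omega
      · have := c4 i h1 h2
        rw [eg k hkT, eg i (by omega)] at this
        omega
  refine Pool.Agent.H725R3.match_card V W (fun t z => rf z t)
    (fun z t => t < N ∧ Up z t ∧ (∀ i, i ≤ t → (z i).1 ≤ (z t).1) ∧ α ≤ (z t).1 ∧
      ((z ∈ V ∧ rf z t ∈ W) ∨ (z ∈ W ∧ rf z t ∈ V)))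
    (fun z s => s < N ∧ Up z s ∧
      ((z ∈ V ∧ rf z s ∈ W ∧ (∀ i, s < i → i ≤ N → (z i).1 < (z s).1) ∧
          β ≤ (z s).1 - (z N).1) ∨
       (z ∈ W ∧ rf z s ∈ V ∧ (∀ i, s < i → i ≤ N → (z s).1 < (z i).1) ∧
          β ≤ (z N).1 - (z s).1)))
    (fun z => tp N z) ?_ ?_ ?_ ?_ ?_ ?_ ?_ ?_ ?_
  · intro z t
    simp only [rf_rf]
  · intro z s t
    rw [rf_comm]
  · -- hFV
    rintro z hz t ⟨f3, f4, f5, f6, f7⟩
    have h5 : rf z t ∈ W := by
      rcases f7 with h | h
      · exact h.2
      · exact (hVW z hz h.1).elim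
    refine ⟨h5, f3, up_rf_ge le_rfl f4, ?_, ?_, Or.inr ⟨h5, ?_⟩⟩
    · intro i hi
      rw [rf_le hi, rf_le le_rfl]
      exact f5 i hi
    · rw [rf_le le_rfl]
      exact f6
    · simp only [rf_rf]
      exact hz
  · -- hGV
    rintro z hz s ⟨g3, g4, g5⟩
    have h5 : rf z s ∈ W ∧ (∀ i, s < i → i ≤ N → (z i).1 < (z s).1) ∧
        β ≤ (z s).1 - (z N).1 := by
      rcases g5 with h | h
      · exact h.2
      · exact (hVW z hz h.1).elim
    refine ⟨h5.1, g3, up_rf_ge le_rfl g4, Or.inr ⟨h5.1, ?_, ?_, ?_⟩⟩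
    · simp only [rf_rf]
      exact hz
    · intro i h6 h7
      rw [rf_le le_rfl, rf_gt h6]
      have := h5.2.1 i h6 h7
      simp only
      omega
    · rw [rf_le le_rfl, rf_gt g3]
      have := h5.2.2
      simp only
      omega
  · -- hGW
    rintro z hz s ⟨g3, g4, g5⟩
    have h5 : rf z s ∈ V ∧ (∀ i, s < i → i ≤ N → (z s).1 < (z i).1) ∧
        β ≤ (z N).1 - (z s).1 := by
      rcases g5 with h | h
      · exact (hVW z h.1 hz).elim
      · exact h.2
    refine ⟨h5.1, g3, up_rf_ge le_rfl g4, Or.inl ⟨h5.1, ?_, ?_, ?_⟩⟩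
    · simp only [rf_rf]
      exact hz
    · intro i h6 h7
      rw [rf_le le_rfl, rf_gt h6]
      have := h5.2.1 i h6 h7
      simp only
      omega
    · rw [rf_le le_rfl, rf_gt g3]
      have := h5.2.2
      simp only
      omega
  · -- htopF
    intro z hz
    have h := ((memV z).1 hz).1
    exact ⟨h.lt, h.up, fun i hi => tp_max i (hi.trans (tp_le N _)), h.a1,
      Or.inl ⟨hz, hVun z hz⟩⟩
  · -- htopG
    intro z hz
    have h := ((memV z).1 hz).1
    exact ⟨h.lt, h.up, Or.inl ⟨hz, hVun z hz, tp_last, h.b1⟩⟩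
  · -- htop
    rintro z hz t ⟨f3, f4, f5, f6, f7⟩
    by_contra hcon
    push Not at hcon
    have h3 := tp_last (N := N) (w := z) t hcon f3.le
    have h4 := f5 _ hcon.le
    omega
  · -- closure
    rintro w hw t s hts ⟨f3, f4, f5, f6, f7⟩ ⟨g3, g4, g5⟩
    have hRt : rf w t ∈ V := by
      rcases f7 with h | h
      · exact (hVW _ h.1 hw).elim
      · exact h.2
    have hRs : rf w s ∈ V ∧ (∀ i, s < i → i ≤ N → (w s).1 < (w i).1) ∧
        β ≤ (w N).1 - (w s).1 := by
      rcases g5 with h | h
      · exact (hVW _ h.1 hw).elim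
      · exact h.2
    obtain ⟨hRs1, hRs2, hRs3⟩ := hRs
    obtain ⟨vt, vtF, -⟩ := (memV _).1 hRt
    obtain ⟨vs, -, vsL⟩ := (memV _).1 hRs1
    obtain ⟨wm, wmF, wmL⟩ := (memW _).1 hw
    have hmem : tm w t s ∈ W := by
      rcases Nat.eq_or_lt_of_le hts with hlt | hlt
      · subst hlt
        rw [tm_self]
        exact hw
      have et : ∀ i, t < i → (rf w t i).1 = 2 * (w t).1 - (w i).1 := fun i hi => by rw [rf_gt hi]
      have et' : ∀ i, i ≤ t → (rf w t i).1 = (w i).1 := fun i hi => by rw [rf_le hi]
      have es : ∀ i, s < i → (rf w s i).1 = 2 * (w s).1 - (w i).1 := fun i hi => by rw [rf_gt hi]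
      have es' : ∀ i, i ≤ s → (rf w s i).1 = (w i).1 := fun i hi => by rw [rf_le hi]
      have htN : (rf w t N).1 = 2 * (w t).1 - (w N).1 := et N f3
      have hsN : (rf w s N).1 = 2 * (w s).1 - (w N).1 := es N g3
      -- c1
      have c1 : ∀ i, i ≤ s → (w i).1 < 2 * (w t).1 := by
        intro i hi
        have h1 := vs.a2
        have h2 := tp_max (N := N) (w := rf w s) i (by omega)
        rw [es' i hi] at h2
        omega
      have c2 : ∀ i, t ≤ i → i ≤ s → 2 * (w s).1 - (w N).1 ≤ (w i).1 := by
        intro i hi1 hi2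
        have h1 := vt.b2
        have h2 := tp_max (N := N) (w := rf w t) i (by omega)
        have h3 : (rf w t i).1 = 2 * (w t).1 - (w i).1 := by
          rcases Nat.eq_or_lt_of_le hi1 with h4 | h4
          · rw [← h4, et' t le_rfl]; ring
          · exact et i h4
        rw [h3] at h2
        rw [htN] at h1
        omega
      have hPN : PN N w t s :=
        ⟨wm.1, hlt, g3, f4, g4, f5, hRs2, vt.saw, vs.saw, vt.ed, vs.eu, c1, c2⟩
      have u1 : ∀ i, i ≤ t → (tm w t s i).1 = (w i).1 := fun i hi => by rw [tm_le hi]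
      have u2 : ∀ i, t < i → i ≤ s → (tm w t s i).1 = 2 * (w t).1 - (w i).1 :=
        fun i h1 h2 => by rw [tm_mid h1 h2]
      have u3 : ∀ i, s < i → (tm w t s i).1 = (w i).1 - 2 * ((w s).1 - (w t).1) :=
        fun i h1 => by rw [tm_gt (by omega) h1]
      have e : (tm w t s N).1 = (w N).1 - 2 * ((w s).1 - (w t).1) := u3 N g3
      rw [memW]
      refine ⟨⟨tm_fbr hPN, ?_, ?_⟩, ?_, ?_⟩
      · rw [e]
        have h1 := c1 s le_rfl
        have h2 := c2 t le_rfl hts
        rcases h0 with h3 | h3 <;> omega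
      · rw [e]
        have h1 := vs.a2
        have h2 := vs.b2
        have h3 := tp_max (N := N) (w := rf w s) t (by omega)
        rw [es' t hts] at h3
        rw [hsN] at h2
        omega
      · -- first piece
        intro k hk d1 d2 d3 d4
        obtain ⟨T, hT⟩ : ∃ T, T = tp N (rf w t) := ⟨_, rfl⟩
        have T1 : T ≤ s := by
          by_contra hcon
          push Not at hcon
          have h1 := tp_max (N := N) (w := rf w t) s (by omega)
          rw [← hT, et T (by omega), et s hlt] at h1
          have h2 := hRs2 T hcon (by rw [hT]; exact tp_le N _)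
          omega
        have T2 : t ≤ T := by
          by_contra hcon
          push Not at hcon
          have h1 := tp_last (N := N) (w := rf w t) t (by rw [← hT]; exact hcon) (by omega)
          rw [← hT, et' T hcon.le, et' t le_rfl] at h1
          have h2 := f5 T hcon.le
          omega
        have hkt : k < t := by
          by_contra hcon
          have := d3 t (by omega)
          rw [u1 t le_rfl] at this
          omega
        rw [u1 k hkt.le] at d1 d2 d3 d4
        rw [← hT] at vtF
        refine vtF k (by omega) ?_ ?_ (fun i hi => ?_) (fun i h1 h2 => ?_)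
        · rw [et' k hkt.le]; exact d1
        · rw [et' k hkt.le]; exact d2
        · rw [et' k hkt.le, et' i (by omega)]
          have := d3 i hi
          rwa [u1 i (by omega)] at this
        · rw [et' k hkt.le]
          have := d4 i h1 (by omega)
          rcases Nat.lt_or_ge t i with h3 | h3
          · rw [u2 i h3 (by omega)] at this
            rw [et i h3]
            exact this
          · rw [u1 i h3] at this
            rw [et' i h3]
            exact this
      · -- last piece
        intro k hk d2 d3 d4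
        obtain ⟨S, hS⟩ : ∃ S, S = tp N (rf w s) := ⟨_, rfl⟩
        have S1 : S ≤ s := by
          by_contra hcon
          push Not at hcon
          have h1 := tp_max (N := N) (w := rf w s) s (by omega)
          rw [← hS, es S hcon, es' s le_rfl] at h1
          have h2 := hRs2 S hcon (by rw [hS]; exact tp_le N _)
          omega
        have S2 : t ≤ S := by
          by_contra hcon
          push Not at hcon
          have h1 := tp_last (N := N) (w := rf w s) t (by rw [← hS]; exact hcon) (by omega)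
          rw [← hS, es' S (by omega), es' t hts] at h1
          have h2 := f5 S hcon.le
          omega
        have hks : s < k := by
          by_contra hcon
          push Not at hcon
          have h1 : (tm w t s k).1 ≤ (tm w t s s).1 := by
            rcases Nat.eq_or_lt_of_le hcon with h2 | h2
            · rw [h2]
            · exact (d4 s h2 g3.le).le
          rw [u2 s hlt le_rfl] at h1
          rw [e] at d2
          omega
        rw [e, u3 k hks] at d2
        rw [← hS] at vsL
        refine vsL k (by omega) hk ?_ (fun i h1 h2 => ?_) (fun i h1 h2 => ?_)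
        · rw [es k hks, hsN]
          omega
        · rw [es k hks]
          have h3 := d3 i h2
          rw [u3 k hks] at h3
          rcases Nat.lt_or_ge s i with h4 | h4
          · rw [u3 i h4] at h3
            rw [es i h4]
            omega
          · rw [es' i h4]
            rcases Nat.lt_or_ge t i with h5 | h5
            · rw [u2 i h5 h4] at h3
              omega
            · have h6 : i = t := by omega
              subst h6
              rw [u1 i le_rfl] at h3
              omega
        · rw [es k hks, es i (by omega)]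
          have h3 := d4 i h1 h2
          rw [u3 k hks, u3 i (by omega)] at h3
          omega
    refine ⟨⟨g3, up_rf_le hts g4, Or.inl ⟨hRt, ?_, ?_, ?_⟩⟩,
      f3, up_rf_ge hts f4, ?_, ?_, Or.inl ⟨hRs1, ?_⟩⟩
    · rw [rf_rf_right hts]
      exact hmem
    · intro i h1 h2
      have h3 := hRs2 i h1 h2
      rw [rf_gt (show t < i by omega)]
      rcases Nat.eq_or_lt_of_le hts with h4 | h4
      · subst h4
        rw [rf_le le_rfl]
        simp only
        omega
      · rw [rf_gt h4]
        simp only
        omega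
    · rcases Nat.eq_or_lt_of_le hts with h4 | h4
      · subst h4
        rw [rf_le le_rfl, rf_gt g3]
        simp only
        omega
      · rw [rf_gt h4, rf_gt (show t < N by omega)]
        simp only
        omega
    · intro i hi
      rw [rf_le (show i ≤ s by omega), rf_le hts]
      exact f5 i hi
    · rw [rf_le hts]
      exact f6
    · rw [rf_rf_left hts]
      exact hmem

end Pool.Agent.TH508.LT
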