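import Pool.Agent.TH508.LT.Word
import Pool.Agent.TH508.LT.Gap2
import Pool.Agent.W387.Q.Sparse2

/-!
Square lattice: the mean-square displacements of the walks with `n + 2` and `n` steps have ratio
`1 + O(log n / √n)`, for all `n`; exponents along subsequences.
-/

set_option autoImplicit false

open Filter Topology

namespace Pool.Agent.TH508.LT.Msd

open Pool.Agent.TH508.LT

open Pool.Agent.H976R2 Pool.Agent.H739K
open Pool.Agent.TH508.LT (ex2)
open Pool.Agent.TH508.LT.WD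

/-- mean-square displacement -/
noncomputable def mq (n : ℕ) : ℝ := mom sq n / ((SW n).card : ℝ)

lemma mean_ge {n : ℕ} (hn : 2 ≤ n) : 1 ≤ mom sq n / ((SW n).card : ℝ) := by
  rw [one_le_div (SWF.card_pos n)]
  unfold mom
  rw [show ((SW n).card : ℝ) = ∑ w ∈ SW n, (1 : ℝ) by simp]
  refine Finset.sum_le_sum fun w hw => ?_
  obtain ⟨hl, hs⟩ := mem_SW.mp hw
  exact (nice_sq n hn).one_le w (by omega) (by omega) hs

lemma mean_le {n : ℕ} (hn : 2 ≤ n) :
    mom sq n / ((SW n).card : ℝ) ≤ 100 * ((n : ℝ) + 5) ^ 3 := by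
  rw [div_le_iff₀ (SWF.card_pos n)]
  unfold mom
  rw [show 100 * ((n : ℝ) + 5) ^ 3 * ((SW n).card : ℝ) = ∑ w ∈ SW n, 100 * ((n : ℝ) + 5) ^ 3 by
    rw [Finset.sum_const, nsmul_eq_mul]; ring]
  refine Finset.sum_le_sum fun w hw => ?_
  obtain ⟨hl, hs⟩ := mem_SW.mp hw
  exact (nice_sq n hn).le w (by omega) (by omega) hs

lemma rt_eventually {C : ℝ} : ∀ᶠ n : ℕ in atTop, C * Pool.Agent.W387.Q.rt n ≤ 1 / 2 := by
  have h5 : Tendsto (fun n : ℕ => C * Pool.Agent.W387.Q.rt n) atTop (𝓝 0) := by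
    have h7 := Pool.Agent.W387.Q.F0_rt_tendsto.const_mul C
    rw [mul_zero] at h7
    exact h7
  exact (h5.eventually (gt_mem_nhds (show (0 : ℝ) < 1 / 2 by norm_num))).mono fun _ h => h.le

/-- elementary estimate -/
lemma ratio_aux {A A' c c' m δ : ℝ} (hA : 0 < A) (hc : 0 < c) (hc' : 0 < c') (hm : 0 < m)
    (h1 : |A' / (m * A) - 1| ≤ δ) (h2 : |c' / (m * c) - 1| ≤ δ) (hδ : δ ≤ 1 / 2) :
    |A' / c' / (A / c) - 1| ≤ 4 * δ := by
  obtain ⟨a, ha⟩ : ∃ a, a = A' / (m * A) := ⟨_, rfl⟩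
  obtain ⟨b, hb⟩ : ∃ b, b = c' / (m * c) := ⟨_, rfl⟩
  rw [← ha] at h1
  rw [← hb] at h2
  have hbpos : 1 / 2 ≤ b := by have := (abs_le.mp h2).1; linarith
  have e : A' / c' / (A / c) - 1 = (a - b) / b := by
    have eA : A' = a * (m * A) := by rw [ha]; field_simp
    have ec : c' = b * (m * c) := by rw [hb]; field_simp
    have hb0 : b ≠ 0 := by linarith
    rw [eA, ec]
    field_simp
  have hδ0 : 0 ≤ δ := (abs_nonneg _).trans h1
  rw [e, abs_div, abs_of_pos (show 0 < b by linarith), div_le_iff₀ (by linarith)]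
  have h3 : |a - b| ≤ 2 * δ := by
    have := abs_sub_le a 1 b
    have h2' : |1 - b| = |b - 1| := abs_sub_comm _ _
    linarith
  nlinarith

theorem moments : ∃ K : ℝ, 0 ≤ K ∧ ∀ N : ℕ, 2 ≤ N →
    |mq (N + 2) / mq N - 1| ≤ K * Pool.Agent.W387.Q.rt N := by
  obtain ⟨C, hC⟩ := Pool.Agent.W387.Q.SWR.main 128 (by norm_num)
  obtain ⟨C', hC'⟩ : ∃ C', C' = max C 0 := ⟨_, rfl⟩
  have hC0 : 0 ≤ C' := by rw [hC']; exact le_max_right _ _
  have hCC : C ≤ C' := by rw [hC']; exact le_max_left _ _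
  have hmu0 : 0 < H981.mu := H981.mu_pos
  obtain ⟨n0, hn0⟩ := Filter.eventually_atTop.mp (rt_eventually (C := C'))
  set S : ℝ := ∑ n ∈ Finset.Ico 2 (n0 + 3), (100 * ((n : ℝ) + 7) ^ 3 + 1) / Pool.Agent.W387.Q.rt n
    with hS
  have hS0 : 0 ≤ S := Finset.sum_nonneg fun n hn => by
    have := Pool.Agent.W387.Q.SWF.rt_nonneg n; positivity
  refine ⟨4 * C' + S, by positivity, fun N hN => ?_⟩
  have hr : 0 < Pool.Agent.W387.Q.rt N := Pool.Agent.W387.Q.SWF.rt_pos hN
  have m1 := mean_ge hN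
  have m2 := mean_ge (show 2 ≤ N + 2 by omega)
  have e0 : mq (N + 2) / mq N =
      (mom sq (N + 2) / ((SW (N + 2)).card : ℝ)) / (mom sq N / ((SW N).card : ℝ)) := rfl
  rw [e0]
  rcases lt_or_ge N (n0 + 3) with hs | hl
  · -- finitely many lengths
    have m3 := mean_le (show 2 ≤ N + 2 by omega)
    have h1 : |(mom sq (N + 2) / ((SW (N + 2)).card : ℝ)) / (mom sq N / ((SW N).card : ℝ)) -
        1| ≤ 100 * ((N : ℝ) + 7) ^ 3 + 1 := by
      have h2 : (mom sq (N + 2) / ((SW (N + 2)).card : ℝ)) /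
          (mom sq N / ((SW N).card : ℝ)) ≤ 100 * ((N : ℝ) + 7) ^ 3 := by
        rw [div_le_iff₀ (by linarith)]
        push_cast at m3
        have e : (N : ℝ) + 2 + 5 = N + 7 := by ring
        rw [e] at m3
        calc _ ≤ 100 * ((N : ℝ) + 7) ^ 3 * 1 := by linarith
          _ ≤ _ := by gcongr
      have h3 : 0 ≤ (mom sq (N + 2) / ((SW (N + 2)).card : ℝ)) /
          (mom sq N / ((SW N).card : ℝ)) := by
        apply div_nonneg <;> linarith
      rw [abs_le]
      have h4 : (0 : ℝ) ≤ 100 * ((N : ℝ) + 7) ^ 3 := by positivity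
      constructor <;> linarith
    have h5 : (100 * ((N : ℝ) + 7) ^ 3 + 1) / Pool.Agent.W387.Q.rt N ≤ S := by
      rw [hS]
      exact Finset.single_le_sum
        (f := fun n : ℕ => (100 * ((n : ℝ) + 7) ^ 3 + 1) / Pool.Agent.W387.Q.rt n)
        (fun n _ => by have := Pool.Agent.W387.Q.SWF.rt_nonneg n; positivity)
        (Finset.mem_Ico.mpr ⟨hN, hs⟩)
    rw [div_le_iff₀ hr] at h5
    refine h1.trans (h5.trans ?_)
    have : 0 ≤ 4 * C' * Pool.Agent.W387.Q.rt N := by positivity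
    nlinarith
  · -- large lengths
    have hsm : C' * Pool.Agent.W387.Q.rt N ≤ 1 / 2 := hn0 N (by omega)
    have g1 := hC N (fun _ => 1) (by omega) (fun m hm => by
      have h := SWF.niceW_of_inv (fun _ => (1 : ℝ)) (fun _ _ _ _ => rfl)
        (fun _ => le_rfl) (fun _ => by norm_num) m
      exact ⟨h.one_le, h.le, fun w a b c => (h.lip w a b c).trans (by norm_num)⟩)
    have g2 := hC N sq (by omega) (fun m hm => nice_sq m hm)
    rw [SWF.mom_one, SWF.mom_one] at g1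
    have hc := SWF.card_pos N
    have hc2 := SWF.card_pos (N + 2)
    have hM : 0 < mom sq N := by
      by_contra hcon
      push Not at hcon
      have := div_nonpos_of_nonpos_of_nonneg hcon hc.le
      linarith
    have hb1 : |((SW (N + 2)).card : ℝ) / (H981.mu ^ 2 * ((SW N).card : ℝ)) - 1| ≤
        C' * Pool.Agent.W387.Q.rt N := g1.trans (mul_le_mul_of_nonneg_right hCC hr.le)
    have ha1 : |mom sq (N + 2) / (H981.mu ^ 2 * mom sq N) - 1| ≤
        C' * Pool.Agent.W387.Q.rt N := g2.trans (mul_le_mul_of_nonneg_right hCC hr.le)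
    have h4 := ratio_aux hM hc hc2 (by positivity) ha1 hb1 hsm
    refine h4.trans ?_
    have h5 : 0 ≤ S * Pool.Agent.W387.Q.rt N := mul_nonneg hS0 hr.le
    linarith


lemma mq_pos {n : ℕ} (hn : 2 ≤ n) : 0 < mq n := lt_of_lt_of_le one_pos (mean_ge hn)

/-- the exponent of the mean-square displacement along lengths of one parity -/
theorem mq_exponent (ε : ℕ) (hε : ε ≤ 1) (s : ℕ → ℕ) (hs : Tendsto s atTop atTop)
    (hgap : Tendsto (fun k => ((s (k + 1) : ℝ) - s k) / Real.sqrt (s k)) atTop (𝓝 0)) (g : ℝ)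
    (hg : Tendsto (fun k => Real.log (mq (2 * s k + ε)) / Real.log ((2 * s k + ε : ℕ) : ℝ))
      atTop (𝓝 g)) :
    Tendsto (fun m : ℕ => Real.log (mq (2 * m + ε)) / Real.log ((2 * m + ε : ℕ) : ℝ))
      atTop (𝓝 g) := by
  obtain ⟨K, hK, h⟩ := moments
  refine Pool.Agent.W387.Q.exp_gen (fun m => mq (2 * m + ε)) (K * 3 ^ 2)
    (fun n hn => mq_pos (by omega)) ?_ (fun m => Real.log ((2 * m + ε : ℕ) : ℝ)) ?_ s hs
    (Pool.Agent.TH508.LT.gap2 s hs hgap) g hg
  · intro n hn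
    have h1 := h (2 * n + ε) (by omega)
    have h2 := Pool.Agent.W387.Q.rt_two_add (m := n) (j := 2 * n + ε) hn (by omega) (by omega)
    have e : 2 * (n + 1) + ε = 2 * n + ε + 2 := by ring
    show |mq (2 * (n + 1) + ε) / mq (2 * n + ε) - 1| ≤ _
    rw [e, mul_assoc]
    exact h1.trans (mul_le_mul_of_nonneg_left h2 hK)
  · intro n hn
    have hn' : (2 : ℝ) ≤ n := by exact_mod_cast hn
    have hε' : (ε : ℝ) ≤ 1 := by exact_mod_cast hε
    have hε0 : (0 : ℝ) ≤ ε := by positivity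
    have e : ((2 * n + ε : ℕ) : ℝ) = (2 + ε / n) * n := by
      push_cast
      field_simp
    have h3 : (ε : ℝ) / n ≤ 1 / 2 := by
      rw [div_le_div_iff₀ (by linarith) (by norm_num)]
      linarith
    have h4 : (0 : ℝ) ≤ ε / n := by positivity
    rw [e, Real.log_mul (by linarith) (by linarith), add_sub_cancel_right,
      abs_of_nonneg (Real.log_nonneg (by linarith))]
    have h5 : Real.log (2 + ε / n) ≤ Real.log (Real.exp 1) := by
      apply Real.log_le_log (by linarith)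
      have := Real.exp_one_gt_d9
      linarith
    rwa [Real.log_exp] at h5

end Pool.Agent.TH508.LT.Msd
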