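import Pool.Agent.W387.Q.Pow2
import Pool.Agent.W387.Q.Walk
import Pool.Agent.TH508.LT.Ex2
import Pool.Agent.H976R2.KMom

/-!
# Weights on self-avoiding walks: radius of gyration, monomer-endpoint distance
-/

set_option autoImplicit false
set_option linter.unusedVariables false

namespace Pool.Agent.TH508.LT.WD

open Finset Pool.Agent.H976R2 Pool.Agent.H739K
open scoped Classical

/-- end point of a word -/
def pt (w : List Dir) : ℤ × ℤ := (wX w, wY w)

/-- vector of a letter -/
def vec (s : Dir) : ℤ × ℤ := (dx s, dy s)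

@[simp] lemma pt_nil : pt [] = 0 := rfl
lemma pt_cons (s : Dir) (w : List Dir) : pt (s :: w) = vec s + pt w := by
  simp [pt, vec]
lemma pt_append (a b : List Dir) : pt (a ++ b) = pt a + pt b := by
  simp [pt]

/-- squared distance -/
noncomputable def d2 (u v : ℤ × ℤ) : ℝ := ((u.1 : ℝ) - v.1) ^ 2 + ((u.2 : ℝ) - v.2) ^ 2

lemma d2_nonneg (u v : ℤ × ℤ) : 0 ≤ d2 u v := by unfold d2; positivity
lemma d2_comm (u v : ℤ × ℤ) : d2 u v = d2 v u := by unfold d2; ring
@[simp] lemma d2_self (u : ℤ × ℤ) : d2 u u = 0 := by unfold d2; ring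

lemma vec_sq (e : Dir) : ((vec e).1 : ℝ) ^ 2 + ((vec e).2 : ℝ) ^ 2 = 1 := by
  cases e <;> simp [vec, dx, dy]

lemma d2_step (u v : ℤ × ℤ) (e : Dir) : d2 (u + vec e) v ≤ 2 * d2 u v + 2 := by
  have h := vec_sq e
  unfold d2
  simp only [Prod.fst_add, Prod.snd_add]
  push_cast
  nlinarith [sq_nonneg (((u.1 : ℝ) - v.1) - ((vec e).1 : ℝ)),
    sq_nonneg (((u.2 : ℝ) - v.2) - ((vec e).2 : ℝ))]

lemma d2_add_vec (u : ℤ × ℤ) (e : Dir) : d2 (u + vec e) u = 1 := by
  have h := vec_sq e
  unfold d2
  simp only [Prod.fst_add, Prod.snd_add]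
  push_cast
  linarith

lemma one_le_d2 {u v : ℤ × ℤ} (h : u ≠ v) : 1 ≤ d2 u v := by
  have h1 : (1 : ℤ) ≤ (u.1 - v.1) ^ 2 + (u.2 - v.2) ^ 2 := by
    by_contra hcon
    push Not at hcon
    have a := sq_nonneg (u.1 - v.1)
    have b := sq_nonneg (u.2 - v.2)
    have h3 : (u.1 - v.1) ^ 2 = 0 := by omega
    have h4 : (u.2 - v.2) ^ 2 = 0 := by omega
    apply h
    have h5 : u.1 - v.1 = 0 := by simpa using h3
    have h6 : u.2 - v.2 = 0 := by simpa using h4
    exact Prod.ext (by linarith) (by linarith)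
  unfold d2
  exact_mod_cast h1

lemma d2_le (u v : ℤ × ℤ) : d2 u v ≤ 2 * d2 u 0 + 2 * d2 v 0 := by
  unfold d2
  simp only [Prod.fst_zero, Prod.snd_zero]
  push_cast
  nlinarith [sq_nonneg ((u.1 : ℝ) + v.1), sq_nonneg ((u.2 : ℝ) + v.2)]

/-- sum over the positions of the walk -/
noncomputable def S (f : ℤ × ℤ → ℝ) (w : List Dir) : ℝ :=
  ∑ k ∈ range (w.length + 1), f (pt (w.take k))

lemma S_nil (f : ℤ × ℤ → ℝ) : S f [] = f 0 := by simp [S]

lemma S_cons (f : ℤ × ℤ → ℝ) (s : Dir) (w : List Dir) :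
    S f (s :: w) = f 0 + S (fun x => f (vec s + x)) w := by
  unfold S
  rw [List.length_cons, sum_range_succ']
  simp only [List.take_succ_cons, List.take_zero, pt_nil, pt_cons]
  rw [add_comm]

lemma S_append_cons (f : ℤ × ℤ → ℝ) (a : List Dir) : ∀ (s : Dir) (b : List Dir),
    S f (a ++ s :: b) = S f a + S (fun x => f (pt a + vec s + x)) b := by
  induction a generalizing f with
  | nil =>
    intro s b
    rw [List.nil_append, S_cons, S_nil]
    simp
  | cons t a ih =>
    intro s b
    rw [List.cons_append, S_cons, ih, S_cons, pt_cons]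
    simp only [add_assoc]

lemma S_ins (f : ℤ × ℤ → ℝ) {w : List Dir} {i : ℕ} (hi : i < w.length) (e : Dir) :
    S f (ins w i e) = S f w + (f (pt (w.take i) + vec e) + f (pt (w.take (i + 1)) + vec e)) := by
  have h1 : w.take (i + 1) = w.take i ++ [lt w i] := by
    rw [lt_eq hi, List.take_append_getElem hi]
  have hw : S f w = S f (w.take i) + S (fun x => f (pt (w.take i) + vec (lt w i) + x))
      (w.drop (i + 1)) := by
    conv_lhs => rw [split_at hi]
    rw [S_append_cons]
  have ho : vec (opp e) = - vec e := by cases e <;> rfl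
  rw [hw]
  unfold ins
  rw [S_append_cons, S_cons, S_cons, h1, pt_append]
  simp only [pt_cons, pt_nil, add_zero, ho]
  have h2 : ∀ x, pt (w.take i) + vec e + (vec (lt w i) + (-vec e + x)) =
      pt (w.take i) + vec (lt w i) + x := by
    intro x; abel
  have h3 : pt (w.take i) + vec e + vec (lt w i) = pt (w.take i) + vec (lt w i) + vec e := by abel
  simp only [h2]
  rw [h3]
  ring

/-- the positions of a self-avoiding walk are different -/
lemma pt_take_inj {w : List Dir} (hs : Saw w) {i j : ℕ} (hi : i ≤ w.length) (hj : j ≤ w.length)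
    (h : pt (w.take i) = pt (w.take j)) : i = j := by
  have h1 := (pth_saw (mem_SW.mpr ⟨rfl, hs⟩)).2.2
  have h2 : pth w.length w ⟨i, by omega⟩ = pth w.length w ⟨j, by omega⟩ := by
    unfold pth
    exact h
  have := h1 h2
  simpa using this

lemma pt_bound (w : List Dir) (k : ℕ) : d2 (pt (w.take k)) 0 ≤ (w.length : ℝ) ^ 2 := by
  have h := sq_le (w.take k)
  have h2 : ((w.take k).length : ℝ) ≤ w.length := by
    rw [List.length_take]
    exact_mod_cast min_le_right _ _
  have h3 : d2 (pt (w.take k)) 0 = Pool.Agent.H976R2.sq (w.take k) := by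
    simp [d2, pt, Pool.Agent.H976R2.sq]
  rw [h3]
  refine h.trans ?_
  gcongr

lemma S_nonneg {f : ℤ × ℤ → ℝ} (hf : ∀ x, 0 ≤ f x) (w : List Dir) : 0 ≤ S f w :=
  sum_nonneg fun _ _ => hf _

lemma S_add (f g : ℤ × ℤ → ℝ) (w : List Dir) : S (fun x => f x + g x) w = S f w + S g w := by
  unfold S; rw [sum_add_distrib]

lemma S_mul (c : ℝ) (f : ℤ × ℤ → ℝ) (w : List Dir) : S (fun x => c * f x) w = c * S f w := by
  unfold S; rw [mul_sum]

lemma S_const (c : ℝ) (w : List Dir) : S (fun _ => c) w = ((w.length : ℝ) + 1) * c := by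
  unfold S; simp

/-- sums over admissible pairs -/
lemma sum_adm_le (w : List Dir) (a : ℕ → ℝ) (ha : ∀ i, 0 ≤ a i) (F : ℕ × Dir → ℝ)
    (hF : ∀ i e, (i, e) ∈ adm w → F (i, e) ≤ a i) :
    ∑ p ∈ adm w, F p ≤ 4 * ∑ i ∈ range w.length, a i := by
  have h1 : ∑ p ∈ adm w, F p ≤ ∑ p ∈ adm w, a p.1 :=
    sum_le_sum fun p hp => hF p.1 p.2 hp
  have h2 : ∑ p ∈ adm w, a p.1 ≤ ∑ p ∈ (range w.length) ×ˢ (univ : Finset Dir), a p.1 := by
    apply sum_le_sum_of_subset_of_nonneg
    · unfold adm
      exact filter_subset _ _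
    · intro p _ _
      exact ha _
  refine h1.trans (h2.trans (le_of_eq ?_))
  rw [sum_product]
  simp only [sum_const]
  have : (univ : Finset Dir).card = 4 := rfl
  rw [this, ← smul_sum, nsmul_eq_mul]
  norm_num

lemma sum_range_le_S {f : ℤ × ℤ → ℝ} (hf : ∀ x, 0 ≤ f x) (w : List Dir) :
    ∑ i ∈ range w.length, f (pt (w.take i)) ≤ S f w ∧
    ∑ i ∈ range w.length, f (pt (w.take (i + 1))) ≤ S f w := by
  unfold S
  constructor
  · rw [sum_range_succ]
    have := hf (pt (w.take w.length))
    linarith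
  · rw [sum_range_succ']
    have := hf (pt (w.take 0))
    linarith

/-! ### the weights -/

/-- distance to the two end points -/
noncomputable def hm (E x : ℤ × ℤ) : ℝ := d2 x 0 + d2 x E

lemma hm_nonneg (E x : ℤ × ℤ) : 0 ≤ hm E x := add_nonneg (d2_nonneg _ _) (d2_nonneg _ _)

/-- twice the squared monomer-endpoint distance -/
noncomputable def fm (w : List Dir) : ℝ := S (hm (pt w)) w / ((w.length : ℝ) + 1)

/-- sum of the squares of all distances -/
noncomputable def GG (w : List Dir) : ℝ := S (fun x => S (d2 x) w) w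

/-- four times the squared radius of gyration -/
noncomputable def fg (w : List Dir) : ℝ := 2 * (GG w / ((w.length : ℝ) + 1) ^ 2)

lemma pt_ins {w : List Dir} {i : ℕ} (hi : i < w.length) (e : Dir) : pt (ins w i e) = pt w := by
  unfold pt
  rw [wX_ins e hi, wY_ins e hi]

lemma hm_step (E x : ℤ × ℤ) (e : Dir) : hm E (x + vec e) ≤ 2 * hm E x + 4 := by
  unfold hm
  have h1 := d2_step x 0 e
  have h2 := d2_step x E e
  linarith

lemma one_le_fm {w : List Dir} (hs : Saw w) (hl : 1 ≤ w.length) : 1 ≤ fm w := by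
  unfold fm
  rw [le_div_iff₀ (by positivity), one_mul]
  have h1 : ∀ k ∈ range (w.length + 1), (1 : ℝ) ≤ hm (pt w) (pt (w.take k)) := by
    intro k hk
    simp only [Finset.mem_range] at hk
    unfold hm
    rcases eq_or_ne k 0 with h0 | h0
    · have hne : pt (w.take k) ≠ pt w := by
        intro h
        have : pt (w.take k) = pt (w.take w.length) := by rw [h, List.take_length]
        have := pt_take_inj hs (by omega) le_rfl this
        omega
      have := one_le_d2 hne
      have := d2_nonneg (pt (w.take k)) 0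
      linarith
    · have hne : pt (w.take k) ≠ 0 := by
        intro h
        have : pt (w.take k) = pt (w.take 0) := by rw [h]; simp
        have := pt_take_inj hs (by omega) (by omega) this
        omega
      have := one_le_d2 hne
      have := d2_nonneg (pt (w.take k)) (pt w)
      linarith
  calc (w.length : ℝ) + 1 = ∑ k ∈ range (w.length + 1), (1 : ℝ) := by simp
    _ ≤ _ := sum_le_sum h1

lemma fm_le (w : List Dir) : fm w ≤ 5 * (w.length : ℝ) ^ 2 := by
  unfold fm
  rw [div_le_iff₀ (by positivity)]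
  have h1 : ∀ k ∈ range (w.length + 1), hm (pt w) (pt (w.take k)) ≤ 5 * (w.length : ℝ) ^ 2 := by
    intro k _
    unfold hm
    have a := pt_bound w k
    have b := pt_bound w w.length
    rw [List.take_length] at b
    have c := d2_le (pt (w.take k)) (pt w)
    linarith
  calc S (hm (pt w)) w ≤ ∑ k ∈ range (w.length + 1), 5 * (w.length : ℝ) ^ 2 := sum_le_sum h1
    _ = _ := by simp; ring

lemma fm_lip {w : List Dir} (hs : Saw w) (hl : 1 ≤ w.length) :
    ∑ p ∈ adm w, |fm (ins w p.1 p.2) - fm w| ≤ 56 * fm w := by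
  obtain ⟨N, hN⟩ : ∃ N : ℝ, N = (w.length : ℝ) + 1 := ⟨_, rfl⟩
  have hN2 : (2 : ℝ) ≤ N := by
    have : (1 : ℝ) ≤ w.length := by exact_mod_cast hl
    linarith
  have hN0 : (0 : ℝ) < N := by linarith
  have hf1 := one_le_fm hs hl
  set f := hm (pt w) with hfd
  have hfn : ∀ x, 0 ≤ f x := fun x => hm_nonneg _ _
  set a : ℕ → ℝ := fun i => (2 * f (pt (w.take i)) + 2 * f (pt (w.take (i + 1))) + 8 + 2 * fm w) / N
    with had
  have key : ∀ i e, (i, e) ∈ adm w → |fm (ins w i e) - fm w| ≤ a i := by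
    intro i e hie
    have hi := (mem_adm.mp hie).1
    have e1 : fm (ins w i e) - fm w =
        (f (pt (w.take i) + vec e) + f (pt (w.take (i + 1)) + vec e) - 2 * fm w) / (N + 2) := by
      have h1 : fm (ins w i e) = (S f w + (f (pt (w.take i) + vec e) +
          f (pt (w.take (i + 1)) + vec e))) / (N + 2) := by
        unfold fm
        rw [pt_ins hi, length_ins e hi, S_ins _ hi]
        congr 1
        rw [hN]; push_cast; ring
      have h2 : S f w = N * fm w := by
        unfold fm
        rw [← hN]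
        field_simp
        rfl
      rw [h1, h2]
      field_simp
      ring
    have b1 := hm_step (pt w) (pt (w.take i)) e
    have b2 := hm_step (pt w) (pt (w.take (i + 1))) e
    rw [← hfd] at b1 b2
    have b3 := hfn (pt (w.take i) + vec e)
    have b4 := hfn (pt (w.take (i + 1)) + vec e)
    rw [e1, abs_div, abs_of_pos (show (0 : ℝ) < N + 2 by linarith)]
    have h5 : |f (pt (w.take i) + vec e) + f (pt (w.take (i + 1)) + vec e) - 2 * fm w| ≤
        2 * f (pt (w.take i)) + 2 * f (pt (w.take (i + 1))) + 8 + 2 * fm w := by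
      rw [abs_le]
      have := hfn (pt (w.take i))
      have := hfn (pt (w.take (i + 1)))
      constructor <;> linarith
    have h6 : 0 ≤ 2 * f (pt (w.take i)) + 2 * f (pt (w.take (i + 1))) + 8 + 2 * fm w :=
      (abs_nonneg _).trans h5
    rw [had]
    simp only
    calc _ ≤ (2 * f (pt (w.take i)) + 2 * f (pt (w.take (i + 1))) + 8 + 2 * fm w) / (N + 2) := by
          gcongr
      _ ≤ _ := by
          apply div_le_div_of_nonneg_left h6 hN0
          linarith
  have ha0 : ∀ i, 0 ≤ a i := by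
    intro i
    have := hfn (pt (w.take i))
    have := hfn (pt (w.take (i + 1)))
    rw [had]
    simp only
    positivity
  have h7 := sum_adm_le w a ha0 (fun p => |fm (ins w p.1 p.2) - fm w|) key
  refine h7.trans ?_
  have h8 := sum_range_le_S hfn w
  have h9 : ∑ i ∈ range w.length, a i =
      (2 * ∑ i ∈ range w.length, f (pt (w.take i)) + 2 * ∑ i ∈ range w.length,
        f (pt (w.take (i + 1))) + (w.length : ℝ) * (8 + 2 * fm w)) / N := by
    rw [had]
    simp only
    rw [← sum_div]
    congr 1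
    rw [mul_sum, mul_sum, ← sum_add_distrib]
    have : (w.length : ℝ) * (8 + 2 * fm w) = ∑ i ∈ range w.length, (8 + 2 * fm w) := by
      rw [sum_const, card_range, nsmul_eq_mul]
    rw [this, ← sum_add_distrib]
    refine sum_congr rfl fun i _ => ?_
    ring
  have h10 : S f w = N * fm w := by
    unfold fm
    rw [← hN]
    field_simp
    rfl
  rw [h9]
  have h11 : (2 * ∑ i ∈ range w.length, f (pt (w.take i)) + 2 * ∑ i ∈ range w.length,
        f (pt (w.take (i + 1))) + (w.length : ℝ) * (8 + 2 * fm w)) ≤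
        (4 * fm w + (8 + 2 * fm w)) * N := by
    have h12 : (w.length : ℝ) ≤ N := by linarith
    have h13 : (w.length : ℝ) * (8 + 2 * fm w) ≤ N * (8 + 2 * fm w) := by gcongr
    rw [h10] at h8
    nlinarith [h8.1, h8.2]
  have h12 : (2 * ∑ i ∈ range w.length, f (pt (w.take i)) + 2 * ∑ i ∈ range w.length,
        f (pt (w.take (i + 1))) + (w.length : ℝ) * (8 + 2 * fm w)) / N ≤ 4 * fm w + (8 + 2 * fm w) := by
    rw [div_le_iff₀ hN0]; exact h11
  linarith

/-! ### gyration -/

lemma GG_nonneg (w : List Dir) : 0 ≤ GG w := S_nonneg (fun x => S_nonneg (fun y => d2_nonneg _ _) w) w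

lemma S_comm_point (w : List Dir) (u : ℤ × ℤ) : S (fun x => d2 x u) w = S (d2 u) w := by
  unfold S
  exact sum_congr rfl fun _ _ => d2_comm _ _

lemma GG_ins {w : List Dir} {i : ℕ} (hi : i < w.length) (e : Dir) :
    GG (ins w i e) = GG w + 2 * S (d2 (pt (w.take i) + vec e)) w +
      2 * S (d2 (pt (w.take (i + 1)) + vec e)) w + 2 := by
  unfold GG
  rw [S_ins _ hi]
  have h1 : ∀ x, S (d2 x) (ins w i e) = S (d2 x) w + (d2 x (pt (w.take i) + vec e) +
      d2 x (pt (w.take (i + 1)) + vec e)) := fun x => S_ins _ hi e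
  simp only [h1]
  rw [S_add, S_add, S_comm_point, S_comm_point]
  have h2 : pt (w.take (i + 1)) = pt (w.take i) + vec (lt w i) := by
    have : w.take (i + 1) = w.take i ++ [lt w i] := by
      rw [lt_eq hi, List.take_append_getElem hi]
    rw [this, pt_append, pt_cons, pt_nil, add_zero]
  have h3 : d2 (pt (w.take (i + 1)) + vec e) (pt (w.take i) + vec e) = 1 := by
    rw [h2]
    have : pt (w.take i) + vec (lt w i) + vec e = (pt (w.take i) + vec e) + vec (lt w i) := by abel
    rw [this, d2_add_vec]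
  have h4 : d2 (pt (w.take i) + vec e) (pt (w.take (i + 1)) + vec e) = 1 := by
    rw [d2_comm]; exact h3
  rw [h3, h4, d2_self, d2_self]
  ring

lemma S_d2_step (w : List Dir) (u : ℤ × ℤ) (e : Dir) :
    S (d2 (u + vec e)) w ≤ 2 * S (d2 u) w + 2 * ((w.length : ℝ) + 1) := by
  have h : ∀ k ∈ range (w.length + 1), d2 (u + vec e) (pt (w.take k)) ≤
      2 * d2 u (pt (w.take k)) + 2 := fun k _ => d2_step _ _ _
  calc S (d2 (u + vec e)) w ≤ ∑ k ∈ range (w.length + 1), (2 * d2 u (pt (w.take k)) + 2) :=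
        sum_le_sum h
    _ = _ := by
      rw [sum_add_distrib, ← mul_sum]
      simp only [sum_const, card_range, nsmul_eq_mul]
      unfold S
      push_cast
      ring

lemma one_le_fg {w : List Dir} (hs : Saw w) (hl : 1 ≤ w.length) : 1 ≤ fg w := by
  have hN2 : (2 : ℝ) ≤ (w.length : ℝ) + 1 := by
    have : (1 : ℝ) ≤ w.length := by exact_mod_cast hl
    linarith
  have h1 : ∀ k ∈ range (w.length + 1), (w.length : ℝ) ≤ S (d2 (pt (w.take k))) w := by
    intro k hk
    simp only [Finset.mem_range] at hk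
    have h2 : ∀ j ∈ range (w.length + 1), (if j = k then (0 : ℝ) else 1) ≤
        d2 (pt (w.take k)) (pt (w.take j)) := by
      intro j hj
      simp only [Finset.mem_range] at hj
      split_ifs with h
      · exact d2_nonneg _ _
      · apply one_le_d2
        intro h3
        exact h (pt_take_inj hs (by omega) (by omega) h3).symm
    calc (w.length : ℝ) = ∑ j ∈ range (w.length + 1), (if j = k then (0 : ℝ) else 1) := by
          have : ∀ j, (if j = k then (0 : ℝ) else 1) = 1 - (if j = k then (1 : ℝ) else 0) := by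
            intro j; split_ifs <;> norm_num
          simp only [this]
          rw [sum_sub_distrib, sum_ite_eq' (range (w.length + 1)) k (fun _ => (1 : ℝ)),
            if_pos (Finset.mem_range.mpr hk)]
          simp
      _ ≤ _ := sum_le_sum h2
  have h3 : ((w.length : ℝ) + 1) * w.length ≤ GG w := by
    calc ((w.length : ℝ) + 1) * w.length = ∑ k ∈ range (w.length + 1), (w.length : ℝ) := by simp
      _ ≤ _ := sum_le_sum h1
  unfold fg
  have h4 : (1 : ℝ) / 2 ≤ GG w / ((w.length : ℝ) + 1) ^ 2 := by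
    rw [le_div_iff₀ (by positivity)]
    nlinarith
  linarith

lemma fg_le (w : List Dir) : fg w ≤ 8 * (w.length : ℝ) ^ 2 := by
  have h1 : ∀ x k, x ∈ range (w.length + 1) → k ∈ range (w.length + 1) →
      d2 (pt (w.take x)) (pt (w.take k)) ≤ 4 * (w.length : ℝ) ^ 2 := by
    intro x k _ _
    have a := pt_bound w k
    have b := pt_bound w x
    have c := d2_le (pt (w.take x)) (pt (w.take k))
    linarith
  have h2 : GG w ≤ ((w.length : ℝ) + 1) ^ 2 * (4 * (w.length : ℝ) ^ 2) := by
    calc GG w ≤ ∑ x ∈ range (w.length + 1), ∑ k ∈ range (w.length + 1), 4 * (w.length : ℝ) ^ 2 :=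
          sum_le_sum fun x hx => sum_le_sum fun k hk => h1 x k hx hk
      _ = _ := by simp; ring
  unfold fg
  have h3 : GG w / ((w.length : ℝ) + 1) ^ 2 ≤ 4 * (w.length : ℝ) ^ 2 := by
    rw [div_le_iff₀ (by positivity)]; linarith
  linarith

lemma fg_lip {w : List Dir} (hs : Saw w) (hl : 1 ≤ w.length) :
    ∑ p ∈ adm w, |fg (ins w p.1 p.2) - fg w| ≤ 128 * fg w := by
  obtain ⟨N, hN⟩ : ∃ N : ℝ, N = (w.length : ℝ) + 1 := ⟨_, rfl⟩
  have hN2 : (2 : ℝ) ≤ N := by
    have : (1 : ℝ) ≤ w.length := by exact_mod_cast hl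
    linarith
  have hN0 : (0 : ℝ) < N := by linarith
  have hf1 := one_le_fg hs hl
  set g : ℤ × ℤ → ℝ := fun x => S (d2 x) w with hg
  have hgn : ∀ x, 0 ≤ g x := fun x => S_nonneg (fun y => d2_nonneg _ _) w
  have hG : GG w = N ^ 2 * fg w / 2 := by
    unfold fg
    rw [← hN]
    field_simp
  have hG2 : GG w = S g w := rfl
  set a : ℕ → ℝ := fun i => (8 * g (pt (w.take i)) + 8 * g (pt (w.take (i + 1)))) / N ^ 2 +
    (20 + 4 * fg w) / N with had
  have key : ∀ i e, (i, e) ∈ adm w → |fg (ins w i e) - fg w| ≤ a i := by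
    intro i e hie
    have hi := (mem_adm.mp hie).1
    have b1 : g (pt (w.take i) + vec e) ≤ 2 * g (pt (w.take i)) + 2 * N := by
      rw [hN]; exact S_d2_step w _ e
    have b2 : g (pt (w.take (i + 1)) + vec e) ≤ 2 * g (pt (w.take (i + 1))) + 2 * N := by
      rw [hN]; exact S_d2_step w _ e
    have b3 := hgn (pt (w.take i) + vec e)
    have b4 := hgn (pt (w.take (i + 1)) + vec e)
    have e1 : fg (ins w i e) - fg w =
        (4 * g (pt (w.take i) + vec e) + 4 * g (pt (w.take (i + 1)) + vec e) + 4) / (N + 2) ^ 2 -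
          fg w * (4 * N + 4) / (N + 2) ^ 2 := by
      have h1 : fg (ins w i e) = 2 * ((GG w + 2 * g (pt (w.take i) + vec e) +
          2 * g (pt (w.take (i + 1)) + vec e) + 2) / (N + 2) ^ 2) := by
        unfold fg
        rw [length_ins e hi, GG_ins hi]
        congr 3
        rw [hN]; push_cast; ring
      rw [h1, hG]
      have : (N + 2) ^ 2 ≠ 0 := by positivity
      field_simp
      ring
    have h2 : (4 * g (pt (w.take i) + vec e) + 4 * g (pt (w.take (i + 1)) + vec e) + 4) /
        (N + 2) ^ 2 ≤ (8 * g (pt (w.take i)) + 8 * g (pt (w.take (i + 1)))) / N ^ 2 + 20 / N := by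
      have h3 : (4 * g (pt (w.take i) + vec e) + 4 * g (pt (w.take (i + 1)) + vec e) + 4) /
        (N + 2) ^ 2 ≤ (4 * g (pt (w.take i) + vec e) + 4 * g (pt (w.take (i + 1)) + vec e) + 4) /
        N ^ 2 := by
        apply div_le_div_of_nonneg_left (by linarith) (by positivity)
        nlinarith
      refine h3.trans ?_
      have h4 : (8 * g (pt (w.take i)) + 8 * g (pt (w.take (i + 1)))) / N ^ 2 + 20 / N =
          (8 * g (pt (w.take i)) + 8 * g (pt (w.take (i + 1))) + 20 * N) / N ^ 2 := by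
        field_simp
      rw [h4]
      apply div_le_div_of_nonneg_right _ (by positivity)
      linarith
    have h3 : fg w * (4 * N + 4) / (N + 2) ^ 2 ≤ 4 * fg w / N := by
      rw [div_le_div_iff₀ (by positivity) hN0]
      have : (4 * N + 4) * N ≤ 4 * (N + 2) ^ 2 := by nlinarith
      nlinarith
    have h5 : 0 ≤ (4 * g (pt (w.take i) + vec e) + 4 * g (pt (w.take (i + 1)) + vec e) + 4) /
        (N + 2) ^ 2 := by positivity
    have h6 : 0 ≤ fg w * (4 * N + 4) / (N + 2) ^ 2 := by positivity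
    have h7 : 0 ≤ (8 * g (pt (w.take i)) + 8 * g (pt (w.take (i + 1)))) / N ^ 2 := by
      have := hgn (pt (w.take i))
      have := hgn (pt (w.take (i + 1)))
      positivity
    have h8 : (20 + 4 * fg w) / N = 20 / N + 4 * fg w / N := by ring
    have h9 : 0 ≤ 20 / N := by positivity
    have h10 : 0 ≤ 4 * fg w / N := by positivity
    rw [e1, had, abs_le]
    simp only
    rw [h8]
    constructor <;> linarith
  have ha0 : ∀ i, 0 ≤ a i := by
    intro i
    have := hgn (pt (w.take i))
    have := hgn (pt (w.take (i + 1)))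
    rw [had]
    simp only
    positivity
  have h7 := sum_adm_le w a ha0 (fun p => |fg (ins w p.1 p.2) - fg w|) key
  refine h7.trans ?_
  have h8 := sum_range_le_S hgn w
  rw [← hG2, hG] at h8
  have h9 : ∑ i ∈ range w.length, a i =
      (8 * ∑ i ∈ range w.length, g (pt (w.take i)) + 8 * ∑ i ∈ range w.length,
        g (pt (w.take (i + 1)))) / N ^ 2 + (w.length : ℝ) * ((20 + 4 * fg w) / N) := by
    rw [had]
    simp only
    rw [sum_add_distrib, ← sum_div, mul_sum, mul_sum, ← sum_add_distrib]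
    congr 1
    simp
  rw [h9]
  have h11 : (8 * ∑ i ∈ range w.length, g (pt (w.take i)) + 8 * ∑ i ∈ range w.length,
        g (pt (w.take (i + 1)))) / N ^ 2 ≤ 8 * fg w := by
    rw [div_le_iff₀ (by positivity)]
    nlinarith [h8.1, h8.2]
  have h12 : (w.length : ℝ) * ((20 + 4 * fg w) / N) ≤ 20 + 4 * fg w := by
    have h13 : (w.length : ℝ) ≤ N := by linarith
    calc (w.length : ℝ) * ((20 + 4 * fg w) / N) ≤ N * ((20 + 4 * fg w) / N) := by gcongr
      _ = _ := by field_simp
  linarith

/-- a constant bound -/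
lemma cube_bd {n : ℕ} {w : List Dir} (h : w.length ≤ n + 4) :
    8 * (w.length : ℝ) ^ 2 ≤ 100 * ((n : ℝ) + 5) ^ 3 := by
  have h1 : (w.length : ℝ) ≤ (n : ℝ) + 4 := by exact_mod_cast h
  have h0 : (0 : ℝ) ≤ w.length := by positivity
  have hn : (0 : ℝ) ≤ n := by positivity
  calc 8 * (w.length : ℝ) ^ 2 ≤ 8 * ((n : ℝ) + 5) ^ 2 := by
        gcongr
        linarith
    _ ≤ 100 * (((n : ℝ) + 5) * ((n : ℝ) + 5) ^ 2) := by nlinarith [sq_nonneg ((n : ℝ) + 5)]
    _ = _ := by ring

lemma nice_fm (m : ℕ) (hm : 2 ≤ m) : NiceW 128 m fm where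
  one_le := fun w h1 _ hs => one_le_fm hs (by omega)
  le := fun w h1 h2 hs => by
    have a := fm_le w
    have b := cube_bd h2
    have : 0 ≤ (w.length : ℝ) ^ 2 := by positivity
    linarith
  lip := fun w h1 h2 hs => by
    have a := fm_lip hs (by omega)
    have b := one_le_fm hs (by omega)
    linarith

lemma nice_fg (m : ℕ) (hm : 2 ≤ m) : NiceW 128 m fg where
  one_le := fun w h1 _ hs => one_le_fg hs (by omega)
  le := fun w h1 h2 hs => (fg_le w).trans (cube_bd h2)
  lip := fun w h1 h2 hs => fg_lip hs (by omega)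

lemma nice_sq (m : ℕ) (hm : 2 ≤ m) : NiceW 128 m sq where
  one_le := fun w h1 _ hs => good_sq.one_le w hs (by omega)
  le := fun w h1 h2 hs => by
    have a := sq_le w
    have b := cube_bd h2
    have : 0 ≤ (w.length : ℝ) ^ 2 := by positivity
    linarith
  lip := fun w h1 h2 hs => by
    have a := good_sq.one_le w hs (by omega)
    have : ∑ p ∈ adm w, |sq (ins w p.1 p.2) - sq w| = 0 := by
      refine Finset.sum_eq_zero (fun q hq => ?_)
      have hi := (mem_adm.mp (show (q.1, q.2) ∈ adm w from hq)).1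
      rw [sq_ins q.2 hi, sub_self, abs_zero]
    rw [this]
    linarith

end Pool.Agent.TH508.LT.WD
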